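import Pool.Agent.Lib.MP_651af7_nt.Cq.Idl
import Pool.Agent.Lib.MP_651af7_nt.Bx.Rep

/-! A rational map from the cone is defined in codimension one. Model: `Bx/Rep`. -/

namespace Pool.Agent.Lib.MP_651af7_nt.Cq

open MvPolynomial Av Bx

variable {k ι κ : Type} [Field k] [CharZero k] [Fintype ι] [Fintype κ] {r : ℕ} {A : AV k ι}
  {σ : Fin r → ι → k}

omit [CharZero k] [Fintype ι] in
/-- The first half of `rep_at`, without homogeneity: `rep2_min`, clear the denominators. -/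
theorem rep_at' {J : Ideal (MvPolynomial ι k)} [J.IsPrime] (𝔭 : Ideal (MvPolynomial ι k ⧸ J))
    [𝔭.IsPrime] (hv : PreValuationRing (Localization.AtPrime 𝔭)) {ψ : κ → MvPolynomial ι k}
    (h0 : ∃ i, ψ i ∉ J) : ∃ χ : κ → MvPolynomial ι k, (∀ i l, χ i * ψ l - χ l * ψ i ∈ J) ∧
      ∃ i, Ideal.Quotient.mk J (χ i) ∉ 𝔭 := by
  have hp : J.IsPrime := inferInstance
  obtain ⟨i₁, hi₁⟩ := h0
  obtain ⟨i₀, hi₀⟩ := rep2_min (fun i => algebraMap (MvPolynomial ι k ⧸ J) (Localization.AtPrime 𝔭)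
    (Ideal.Quotient.mk J (ψ i))) Finset.univ ⟨i₁, Finset.mem_univ _⟩
  choose u hu using fun i => hi₀ i (Finset.mem_univ i)
  obtain ⟨c, hc⟩ := IsLocalization.exist_integer_multiples_of_finite 𝔭.primeCompl u
  choose β hβ using hc
  have hinj : Function.Injective (algebraMap (MvPolynomial ι k ⧸ J) (Localization.AtPrime 𝔭)) :=
    IsLocalization.injective (Localization.AtPrime 𝔭) 𝔭.primeCompl_le_nonZeroDivisors
  obtain ⟨C, hC⟩ := Ideal.Quotient.mk_surjective (c : MvPolynomial ι k ⧸ J)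
  choose B hB using fun i => Ideal.Quotient.mk_surjective (β i)
  have h2 : ∀ i, C * ψ i - B i * ψ i₀ ∈ J := fun i => by
    rw [← Ideal.Quotient.eq, map_mul, map_mul, hC, hB]
    apply hinj
    rw [map_mul, map_mul, hβ, hu i, Algebra.smul_def]
    ring
  have he : Ideal.Quotient.mk J C ∉ 𝔭 := hC ▸ c.2
  have h3 : ψ i₀ ∉ J := fun h => by
    have h4 : C * ψ i₁ ∈ J := by simpa using J.add_mem (h2 i₁) (J.mul_mem_left (B i₁) h)
    rcases hp.mem_or_mem h4 with h5 | h5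
    · exact he (by rw [Ideal.Quotient.eq_zero_iff_mem.2 h5]; exact 𝔭.zero_mem)
    · exact hi₁ h5
  refine ⟨B, fun i l => ?_, i₀, ?_⟩
  · refine (hp.mem_or_mem (x := ψ i₀) ?_).resolve_left h3
    have := J.sub_mem (J.mul_mem_left (ψ i) (h2 l)) (J.mul_mem_left (ψ l) (h2 i))
    refine (congrArg (· ∈ J) ?_).mp this
    ring
  · have h4 : C - B i₀ ∈ J :=
      (hp.mem_or_mem (y := ψ i₀) (by rw [sub_mul]; exact h2 i₀)).resolve_right h3
    rw [← Ideal.Quotient.eq.2 h4]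
    exact he

/-- As `Bx.exists_rep`, with the entries of all tuples `χ` proportional to `dh ∘ ψ` modulo `A.I`;
finitely many tuples span the same ideal; `Cn.exists_hmg` makes them forms of one degree,
`mem_cI`; `exists_X`, `val_at`, `rep_at'`. -/
theorem exists_rep (hσ : A.LieBasis σ) (hr : 0 < r) {ψ : κ → MvPolynomial (Option ι) k} {b : ℕ}
    (hψ : ∀ i, (ψ i).IsHomogeneous b) (h0 : ∃ i, ψ i ∉ cI A.I) :
    ∃ (T : Type) (_ : Fintype T) (d : ℕ) (Ψ : T → κ → MvPolynomial (Option ι) k),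
      (∀ t i, (Ψ t i).IsHomogeneous d) ∧ (∀ t i l, Ψ t i * ψ l - Ψ t l * ψ i ∈ cI A.I) ∧
      2 ≤ ((Ideal.span (Set.range fun q : T × κ => dh (Ψ q.1 q.2))).map
        (Ideal.Quotient.mk A.I)).height := by
  obtain ⟨s, hs, hsp⟩ := (Submodule.fg_span_iff_fg_span_finset_subset
    {f : MvPolynomial ι k | ∃ (χ : κ → MvPolynomial ι k) (i : κ),
      (∀ i l, χ i * dh (ψ l) - χ l * dh (ψ i) ∈ A.I) ∧ χ i = f}).1 (IsNoetherian.noetherian
      (R := MvPolynomial ι k) _)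
  choose χ i hχ hi using fun t : s => hs t.2
  obtain ⟨e, he⟩ : ∃ e, ∀ q : s × κ, (χ q.1 q.2).totalDegree ≤ e :=
    ⟨Finset.univ.sup fun q : s × κ => (χ q.1 q.2).totalDegree, fun q =>
      Finset.le_sup (f := fun q : s × κ => (χ q.1 q.2).totalDegree) (Finset.mem_univ q)⟩
  choose Ψ hΨ hd using fun (t : s) (l : κ) => Cn.exists_hmg (b := e) (R := χ t l) fun μ hμ =>
    (show μ.degree ≤ (χ t l).totalDegree from le_totalDegree hμ).trans (he (t, l))
  have hd' : ∀ t l, dh (Ψ t l) = χ t l := hd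
  refine ⟨s, inferInstance, e + 1, Ψ, hΨ, fun t l m => ?_, ?_⟩
  · rw [mem_cI A.hom (((hΨ t l).mul (hψ m)).sub ((hΨ t m).mul (hψ l))), map_sub, map_mul, map_mul,
      hd', hd']
    exact hχ t l m
  rw [Ideal.height_eq_inf_minimalPrimes]
  refine le_iInf₂ fun 𝔭 h𝔭 => not_lt.1 fun h => ?_
  have := h𝔭.isPrime
  have := A.tr_prime
  rw [ENat.lt_two_iff] at h
  obtain ⟨a, ha⟩ := exists_X hσ hr 𝔭 h
  obtain ⟨ψ', h1, l, hl⟩ := rep_at' 𝔭 (val_at hσ 𝔭 h ha) (ψ := fun i => dh (ψ i))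
    (h0.imp fun i hi h => hi ((mem_cI A.hom (hψ i)).2 h))
  have h2 : Ideal.span (s : Set (MvPolynomial ι k)) ≤ 𝔭.comap (Ideal.Quotient.mk A.I) :=
    Ideal.span_le.2 fun f hf => by
      have h3 := h𝔭.1.2 (Ideal.mem_map_of_mem _ (Ideal.subset_span ⟨(⟨f, hf⟩, i ⟨f, hf⟩), rfl⟩))
      simp only [hd', hi] at h3
      exact h3
  exact hl (h2 (hsp.le (Submodule.subset_span ⟨ψ', l, h1, rfl⟩)))

end Pool.Agent.Lib.MP_651af7_nt.Cq
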