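import Pool.Agent.Lib.MP_651af7_nt.Cq.Ht
import Pool.Agent.Lib.MP_651af7_nt.Cq.Val
import Pool.Agent.Lib.MP_651af7_nt.Cq.Rep
import Pool.Agent.Lib.MP_651af7_nt.Ds.Tan
import Pool.Agent.Lib.MP_8865d3_nt.Sa.VI

/-! The inequality over the field of definition of the cone. -/

namespace Pool.Agent.Lib.MP_651af7_nt.Cq

open MvPolynomial Module Height NumberField Av Bx
open Pool.Agent.Lib.MP_8865d3_nt
open Sa (ord VI)
open Lr (gp aeval_gp_eq_zero)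

variable {k ι κ β γ T : Type} [Field k] [Fintype ι] [Fintype κ] {r g e e' : ℕ} {A : AV k ι}
  {σ : Fin r → ι → k} {I : Ideal (MvPolynomial κ k)} {φ : Option ι → MvPolynomial κ k}
  {ψ : κ → MvPolynomial (Option ι) k} {F : β → MvPolynomial κ k} {G : γ → MvPolynomial κ k}

/-- The hypothesis on orders of the theorem on the cone. -/
theorem ord_key [CharZero k] [Nonempty β] (hσ : A.LieBasis σ) (hI : I.IsPrime)
    (h₁ : Inv I (cI A.I) φ ψ) (h₂ : Inv (cI A.I) I ψ φ) {Ψ : T → κ → MvPolynomial (Option ι) k}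
    (hΨ : ∀ t i l, Ψ t i * ψ l - Ψ t l * ψ i ∈ cI A.I) (hF : ∀ l, (F l).IsHomogeneous e)
    (hG : ∀ l, (G l).IsHomogeneous e') (hv : VI I (r + 1) F G) (ω δ : ℕ) :
    (r + 1 + 1 : ℕ) * ord (cI A.I) (wt ω δ) (fun q : T × κ => Ψ q.1 q.2) +
        ord (cI A.I) (wt ω δ) (fun l => aeval ψ (F l)) + e' * ord (cI A.I) (wt ω δ) ψ +
        ((r + 1) * δ : ℕ) ≤
      ord (cI A.I) (wt ω δ) (fun q : γ × ι × T × (Fin (r + 1 + 1) → κ) =>
        aeval ψ (G q.1) * cwr A σ (Ψ q.2.2.1) q.2.1 q.2.2.2) + e * ord (cI A.I) (wt ω δ) ψ := by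
  have := cI_prime A.tr_prime
  refine ord_le (s₀ := some A.ao) (sg_zero A.hom ω δ) (fun h => ao_notMem A ?_) hΨ (cvf_tan hσ)
    (sg_cvf ω δ) hF hG fun v h l => hv ‹_› _ _ (fun P d hP => ?_) v h l
  · simpa [dh] using dh_mem h
  rw [← comp_aeval_apply, aeval_gp_eq_zero]
  exact ⟨fun h => not_not.1 fun h0 => h₁.pull hI hP h0 h, h₂.map _⟩

theorem core [NumberField k] [Fintype β] [Fintype γ] (hI : Var I) (hs : Smooth I g) (hg : 2 ≤ g)
    (h₁ : Inv I (cI A.I) φ ψ) (h₂ : Inv (cI A.I) I ψ φ) (hF : ∀ l, (F l).IsHomogeneous e)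
    (hG : ∀ l, (G l).IsHomogeneous e') (hv : VI I g F G) {ε : ℝ} (hε : 0 < ε) :
    Cc I g φ F e G e' ε := by
  obtain ⟨Θ, t, t1, t2, t3⟩ := exists_good hI.isPrime h₁ h₂
    ((Ideal.ne_top_iff_one _).1 A.tr_prime.ne_top)
  by_cases h0 : Nonempty β ∧ ∃ x, Good I φ ψ x
  swap
  · exact ⟨Θ, t, t1, t2, fun S => ⟨0, 0, le_rfl, fun x x0 xz xΘ xF _ => (h0
      ⟨⟨(Function.ne_iff.1 xF).choose⟩, _, (t3 x x0 xz xΘ).1⟩).elim⟩⟩
  obtain ⟨_, x, hx⟩ := h0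
  obtain ⟨r, σ, hσ⟩ := exists_lieBasis A
  obtain rfl : g = r + 1 := by
    have h1 := hx.rank hσ hI.hom h₁ h₂
    rw [← Ds.finrank_tsp (F := AlgebraicClosure k), hs _ (fun h => hx.ne (funext fun a =>
      (map_eq_zero _).1 (congrFun h a))) (Ds.tan3_zero hx.zero)] at h1
    omega
  obtain ⟨b, hψ⟩ := h₂.hom
  obtain ⟨T, _, d, Ψ, h1, h2, h4⟩ := exists_rep hσ (by omega) hψ
    (h₁.ne.imp fun i hi e => hi (h₁.map _ e))
  refine main_of hσ hI.hom hI.isPrime h₁ h₂ h1 h2 hF hG (fun ε hε => ?_) ?_ hε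
  · have g1 := fun q : T × κ => h1 q.1 q.2
    have g2 := fun l => (hF l).aeval ψ hψ
    have g3 := fun q : γ × ι × T × (Fin (r + 1 + 1) → κ) => ((hG q.1).aeval ψ hψ).mul
      (cwr_hom (A := A) (σ := σ) (h1 q.2.2.1) q.2.1 q.2.2.2)
    exact main_W A g1 g2 g3 hψ h4 (by ring) (ord_key hσ hI.isPrime h₁ h₂ h2 hF hG hv) hε
  · by_contra! hc
    have := A.tr_prime
    rw [(Ideal.map_eq_bot_iff_le_ker _).2 (Ideal.span_le.2 (by
      rintro _ ⟨q, rfl⟩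
      exact Ideal.Quotient.eq_zero_iff_mem.2 (hc q.1 q.2))), Ideal.height_bot] at h4
    simp at h4

end Pool.Agent.Lib.MP_651af7_nt.Cq
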