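import Pool.Agent.Lib.MP_651af7_nt.Cq.Idl
import Pool.Agent.Lib.MP_8865d3_nt.Sa.LVal

/-! Orders along the two boundary divisors. -/

namespace Pool.Agent.Lib.MP_651af7_nt.Cq

open MvPolynomial Av
open Pool.Agent.Lib.MP_8865d3_nt.Sa (sg ord)

variable {k ι L : Type} [Field k] {I : Ideal (MvPolynomial ι k)}

lemma qord_wt {τ A : Type} [CommRing A] [Algebra k A] (φ : MvPolynomial τ k →ₐ[k] A)
    (w : τ → ℕ) (i : ℕ) (f : MvPolynomial τ k) :
    (aeval (fun a => Polynomial.X ^ w a * Polynomial.C (φ (X a))) f).coeff i =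
      φ (weightedHomogeneousComponent w i f) := by
  induction f using MvPolynomial.induction_on' with
  | monomial μ c =>
    have h1 : aeval (fun a => Polynomial.X ^ w a * Polynomial.C (φ (X a))) (monomial μ c) =
        Polynomial.monomial (Finsupp.weight w μ) (φ (monomial μ c)) := by
      rw [← Polynomial.C_mul_X_pow_eq_monomial, aeval_monomial, monomial_eq,
        Finsupp.weight_apply, Finsupp.sum, ← Finset.prod_pow_eq_pow_sum]
      simp only [Finsupp.prod, map_mul, map_prod, map_pow, mul_pow, Finset.prod_mul_distrib,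
        smul_eq_mul, ← pow_mul, mul_comm (w _), algHom_C]
      rw [mul_comm (∏ a ∈ μ.support, _), ← mul_assoc]
      rfl
    rw [h1, Polynomial.coeff_monomial, weightedHomogeneousComponent_of_mem
      (isWeightedHomogeneous_monomial w μ c rfl), apply_ite φ, map_zero]
    exact if_congr eq_comm rfl rfl
  | add p q hp hq => simp only [map_add, Polynomial.coeff_add, hp, hq]

/-- Copy of `Sa.coeff_sg` (`MP_8865d3_nt/Sa/TVal`, with `coeff_aeval_wt`; do not import it). -/
theorem coeff_sg {τ : Type} (P : Ideal (MvPolynomial τ k)) (w : τ → ℕ) (i : ℕ)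
    (f : MvPolynomial τ k) :
    (sg P w f).coeff i = Ideal.Quotient.mk P (weightedHomogeneousComponent w i f) := by
  exact qord_wt (Ideal.Quotient.mkₐ k P) w i f

theorem sg_wh {τ : Type} (P : Ideal (MvPolynomial τ k)) {w : τ → ℕ} {n : ℕ}
    {f : MvPolynomial τ k} (hf : f.IsWeightedHomogeneous w n) :
    sg P w f = Polynomial.X ^ n * Polynomial.C (Ideal.Quotient.mk P f) := by
  ext1 i
  rw [coeff_sg, weightedHomogeneousComponent_of_mem hf, Polynomial.X_pow_mul_C,
    Polynomial.coeff_C_mul_X_pow, apply_ite (Ideal.Quotient.mk P), map_zero]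

lemma qord_wh {g : MvPolynomial ι k} {n : ℕ} (hg : g.IsHomogeneous n) (ω δ : ℕ) :
    (rename some g).IsWeightedHomogeneous (wt ω δ) (n * δ) := by
  have h0 : rename some g = ∑ μ ∈ g.support, monomial (μ.mapDomain some) (coeff μ g) := by
    conv_lhs => rw [g.as_sum, map_sum]
    simp only [rename_monomial]
  rw [h0]
  refine IsWeightedHomogeneous.sum _ _ _ fun μ hμ => isWeightedHomogeneous_monomial _ _ _ ?_
  rw [← hg (mem_support_iff.1 hμ), Finsupp.weight_apply, Finsupp.weight_apply,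
    Finsupp.sum_mapDomain_index (h := fun i (c : ℕ) => c • wt ω δ i) (fun _ => zero_smul _ _)
      (fun _ _ _ => add_smul _ _ _),
    Finsupp.sum, Finsupp.sum, Finset.sum_mul]
  simp [wt]

/-- Enough for `rename some g`, `g ∈ I` a form of degree `n`: weight `n * δ`, `sg_wh`. -/
theorem sg_zero (hI : ∀ P ∈ I, ∀ d, homogeneousComponent d P ∈ I) (ω δ : ℕ) :
    ∀ f ∈ cI I, sg (cI I) (wt ω δ) f = 0 := by
  have h1 : cI I ≤ RingHom.ker (sg (cI I) (wt ω δ)) := Ideal.map_le_iff_le_comap.2 fun g hg => by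
    rw [Ideal.mem_comap, RingHom.mem_ker, ← sum_homogeneousComponent g, map_sum, map_sum]
    refine Finset.sum_eq_zero fun n _ => ?_
    rw [sg_wh _ (qord_wh (homogeneousComponent_isHomogeneous n g) ω δ),
      (Ideal.Quotient.eq_zero_iff_mem (I := cI I)).2 (Ideal.mem_map_of_mem _ (hI g hg n)),
      map_zero, mul_zero]
  exact fun f hf => h1 hf

lemma qord_le {f : MvPolynomial (Option ι) k} {d n : ℕ} (hf : f.IsHomogeneous d)
    (h : homogeneousComponent n (dh f) ∉ I) : n ≤ d := by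
  by_contra h1
  have h2 := congrArg (fun g => homogeneousComponent n (dh g)) (eq_sum_dh hf)
  simp only [map_sum, map_mul, map_pow, dh_rename] at h2
  refine h (h2 ▸ Ideal.sum_mem _ fun j hj => ?_)
  have h3 : (dh (X none) : MvPolynomial ι k) = 1 := aeval_X _ _
  have h4 := Finset.mem_range.1 hj
  rw [h3, one_pow, one_mul, homogeneousComponent_of_mem (homogeneousComponent_mem _ _),
    if_neg (by omega)]
  exact I.zero_mem

lemma qord_zero {f : MvPolynomial ι k} {e : ℕ} :
    Ideal.Quotient.mk (cI I) (X none ^ e * rename some f) = 0 ↔ f ∈ I := by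
  rw [Ideal.Quotient.eq_zero_iff_mem]
  refine ⟨fun h => ?_, fun h => Ideal.mul_mem_left _ _ (Ideal.mem_map_of_mem _ h)⟩
  have h3 : (dh (X none) : MvPolynomial ι k) = 1 := aeval_X _ _
  have h1 := dh_mem h
  rwa [map_mul, map_pow, h3, one_pow, one_mul, dh_rename] at h1

lemma qord_coeff {f : MvPolynomial (Option ι) k} {d : ℕ} (hf : f.IsHomogeneous d) (ω δ i : ℕ) :
    (sg (cI I) (wt ω δ) f).coeff i = ∑ n ∈ Finset.range (d + 1), if i = (d - n) * ω + n * δ then
      Ideal.Quotient.mk (cI I) (X none ^ (d - n) * rename some (homogeneousComponent n (dh f)))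
      else 0 := by
  conv_lhs => rw [eq_sum_dh hf, map_sum, Polynomial.finsetSum_coeff]
  refine Finset.sum_congr rfl fun n _ => ?_
  rw [sg_wh _ (((isWeightedHomogeneous_X k (wt ω δ) none).pow (d - n)).mul
    (qord_wh (homogeneousComponent_isHomogeneous n _) ω δ)), Polynomial.X_pow_mul_C,
    Polynomial.coeff_C_mul_X_pow]
  rfl

lemma qord_eq {Γ : L → MvPolynomial (Option ι) k} {d m c ω δ : ℕ}
    (hΓ : ∀ l, (Γ l).IsHomogeneous d) (hm : ∃ l, homogeneousComponent m (dh (Γ l)) ∉ I)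
    (h1 : ∀ n ≤ d, m ≤ d → (c = (d - n) * ω + n * δ ↔ n = m))
    (h2 : ∀ l, ∀ n ≤ d, homogeneousComponent n (dh (Γ l)) ∉ I → c ≤ (d - n) * ω + n * δ) :
    ord (cI I) (wt ω δ) Γ = c := by
  obtain ⟨l₀, h₀⟩ := hm
  have hmd := qord_le (hΓ l₀) h₀
  refine le_antisymm (iInf_le_of_le l₀ (Polynomial.trailingDegree_le_of_ne_zero ?_))
    (le_iInf fun l => ?_)
  · rw [qord_coeff (hΓ l₀), Finset.sum_eq_single m, if_pos ((h1 m hmd hmd).2 rfl)]
    · exact fun h => h₀ (qord_zero.1 h)
    · exact fun n hn h => if_neg fun h3 =>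
        h ((h1 n (Nat.lt_succ_iff.1 (Finset.mem_range.1 hn)) hmd).1 h3)
    · exact fun h => absurd (Finset.mem_range.2 (Nat.lt_succ_of_le hmd)) h
  · by_cases h3 : sg (cI I) (wt ω δ) (Γ l) = 0
    · rw [h3, Polynomial.trailingDegree_zero]
      exact le_top
    rw [Polynomial.trailingDegree_eq_natTrailingDegree h3, Nat.cast_le]
    have h4 := mt Polynomial.coeff_natTrailingDegree_eq_zero.1 h3
    rw [qord_coeff (hΓ l)] at h4
    obtain ⟨n, hn, h5⟩ := Finset.exists_ne_zero_of_sum_ne_zero h4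
    obtain ⟨h6, h7⟩ := ite_ne_right_iff.1 h5
    rw [h6]
    exact h2 l n (Nat.lt_succ_iff.1 (Finset.mem_range.1 hn)) fun h => h7 (qord_zero.2 h)

variable {Γ : L → MvPolynomial (Option ι) k} {d a b : ℕ}

/-- By `eq_sum_dh` and `sg_wh`, the coefficient `n` of `sg _ (wt 0 1) f` is the class of
`X none ^ (d - n) * rename some (homogeneousComponent n (dh f))` for `n ≤ d`; `dh_mem`. -/
theorem ord_lo (hΓ : ∀ l, (Γ l).IsHomogeneous d) (h : Ext I (fun l => dh (Γ l)) a b) :
    ord (cI I) (wt 0 1) Γ = a :=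
  qord_eq hΓ h.lo (fun n _ _ => by omega) fun l n _ hn => by
    have h1 := (h.rng l n hn).1
    omega

/-- The same term is the coefficient `d - n` of `sg _ (wt 1 0) f`; `b ≤ d`. -/
theorem ord_hi (hΓ : ∀ l, (Γ l).IsHomogeneous d) (h : Ext I (fun l => dh (Γ l)) a b) :
    ∃ c : ℕ, c + b = d ∧ ord (cI I) (wt 1 0) Γ = c := by
  obtain ⟨l, hl⟩ := h.hi
  have h0 := qord_le (hΓ l) hl
  refine ⟨d - b, by omega, qord_eq hΓ h.hi (fun n _ _ => by omega) fun l n _ hn => ?_⟩
  have h1 := (h.rng l n hn).2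
  omega

end Pool.Agent.Lib.MP_651af7_nt.Cq
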