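import Pool.Agent.Lib.MP_651af7_nt.Cq.Ext
import Pool.Agent.Lib.MP_651af7_nt.Cq.Ord

/-! The inequality on the cone. Model: `MP_8865d3_nt/Sa/WMain`. -/

namespace Pool.Agent.Lib.MP_651af7_nt.Cq

open MvPolynomial Av
open Cn (pt mv Rng cnt hc ell)
open Pool.Agent.Lib.MP_8865d3_nt.Sv (isum osum isum_mono isum_add isum_sub isum_const_mul
  osum_mono osum_const_mul gsum_sub isum_add_osum finS_abs)
open Pool.Agent.Lib.MP_8865d3_nt.Sa (ord)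
open Vj (gsum)

variable {k ι L₁ L₂ L₃ L₄ : Type} [Field k]

/-- The logarithm of the norm of the values. -/
noncomputable def ln (Γ : L₁ → MvPolynomial (Option ι) k) (v : ι → k) (w : AbsoluteValue k ℝ) : ℝ :=
  Real.log (nm w fun l => eval (pt v) (Γ l))

variable [NumberField k] [Fintype ι]

/-- The conclusion of the theorem on the cone. -/
def Eng (A : AV k ι) (Γ₁ : L₁ → MvPolynomial (Option ι) k) (Γ₂ : L₂ → MvPolynomial (Option ι) k)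
    (Γ₃ : L₃ → MvPolynomial (Option ι) k) (Γ₄ : L₄ → MvPolynomial (Option ι) k) (n p q R : ℕ)
    (ε : ℝ) : Prop :=
  ∃ Θ ∉ A.I, ∀ T : Finset (AbsoluteValue k ℝ), ∃ c C : ℝ, 0 ≤ c ∧ ∀ v : ι → k, v ≠ 0 →
    (∀ f ∈ A.I, eval v f = 0) → eval v Θ ≠ 0 → (fun l => eval (pt v) (Γ₂ l)) ≠ 0 →
    (fun l => eval (pt v) (Γ₃ l)) ≠ 0 → (fun l => eval (pt v) (Γ₄ l)) ≠ 0 →
    (fun l => eval (pt v) (Γ₁ l)) ≠ 0 ∧
    isum T (fun w => ln Γ₃ v w - R * ell w v - ln Γ₂ v w + p * ln Γ₄ v w - q * ln Γ₄ v w) -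
      n * gsum (ln Γ₁ v) ≤ ε * hc v + c * cnt T v + C

theorem qeng_pt {a₁ b₁ a₂ b₂ a₃ b₃ a₄ b₄ n p q R : ℕ} (ha : n * a₁ + a₂ + q * a₄ + R ≤ a₃ + p * a₄)
    (hb : b₃ + p * b₄ ≤ n * b₁ + b₂ + q * b₄ + R) (e : ℝ) :
    a₃ * e + ((b₃ : ℝ) - a₃) * max 0 e - R * e - (a₂ * e + ((b₂ : ℝ) - a₂) * max 0 e) +
      p * (a₄ * e + ((b₄ : ℝ) - a₄) * max 0 e) - q * (a₄ * e + ((b₄ : ℝ) - a₄) * max 0 e) ≤
      n * (a₁ * e + ((b₁ : ℝ) - a₁) * max 0 e) := by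
  have ha' : (n * a₁ + a₂ + q * a₄ + R : ℝ) ≤ a₃ + p * a₄ := by exact_mod_cast ha
  have hb' : (b₃ + p * b₄ : ℝ) ≤ n * b₁ + b₂ + q * b₄ + R := by exact_mod_cast hb
  rcases le_total 0 e with h | h
  · rw [max_eq_right h]
    linarith [mul_le_mul_of_nonneg_right hb' h]
  · rw [max_eq_left h]
    linarith [mul_le_mul_of_nonpos_right ha' h]

omit [NumberField k] [Fintype ι] in
theorem qeng_ln (Γ : L₁ → MvPolynomial (Option ι) k) (a b : ℕ) (v : ι → k)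
    (w : AbsoluteValue k ℝ) : ln Γ v w =
      a * ell w v + ((b : ℝ) - a) * max 0 (ell w v) - mv a b (fun l => dh (Γ l)) v w := by
  simp only [ln, mv, eval_dh, sub_sub_cancel]

theorem qeng_gsum [Fintype L₁] (Γ : L₁ → MvPolynomial (Option ι) k) {a b : ℕ} (hab : a ≤ b)
    (T : Finset (AbsoluteValue k ℝ)) {v : ι → k} (hv : v ≠ 0) :
    isum T (fun w => a * ell w v + ((b : ℝ) - a) * max 0 (ell w v)) - gsum (ln Γ v) ≤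
      gsum (mv a b (fun l => dh (Γ l)) v) + a * cnt T v := by
  have f1 : Vj.FinS fun w : AbsoluteValue k ℝ => a * ell w v + ((b : ℝ) - a) * max 0 (ell w v) :=
    ((Cn.finS_ell v).const_mul a).add ((Cn.finS_pos hv).const_mul _)
  have f2 : Vj.FinS (ln Γ v) := finS_nm _
  have e1 : mv a b (fun l => dh (Γ l)) v =
      fun w => a * ell w v + ((b : ℝ) - a) * max 0 (ell w v) - ln Γ v w :=
    funext fun w => by rw [qeng_ln Γ a b, sub_sub_cancel]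
  have f3 := finS_abs (Cn.finS_ell v)
  have e2 := osum_mono T (f3.const_mul (-a)) f1 fun w _ _ => by
    have h1 : (0 : ℝ) ≤ ((b : ℝ) - a) * max 0 (ell w v) :=
      mul_nonneg (sub_nonneg.2 (Nat.cast_le.2 hab)) (le_max_left _ _)
    linarith [mul_le_mul_of_nonneg_left (neg_abs_le (ell w v)) (a.cast_nonneg (α := ℝ))]
  rw [osum_const_mul T f3] at e2
  rw [e1, gsum_sub f1 f2, ← isum_add_osum T f1, cnt]
  linarith

/-- If all `dh (Γ l)` of one of the families 2, 3, 4 lie in `A.I`, there is no point (`Θ = 1`,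
`eval_dh`); for family 1 this is excluded by the height. Otherwise `exists_ext` gives `(aᵢ, bᵢ)`;
`h 0 1`, `h 1 0`, `ord_lo`, `ord_hi`, `hd` give `n a₁ + a₂ + q a₄ + R ≤ a₃ + p a₄` and
`b₃ + p b₄ ≤ n b₁ + b₂ + q b₄ + R`. With `ln Γ = a ell + (b - a) max 0 ell - mv a b (dh ∘ Γ)` the
left side is at most `n gsum mv₁ + isum mv₂ + q isum mv₄ - isum mv₃ - p isum mv₄ + n b₁ cnt`;
`Ext.gcd`, `Ext.prox` with `ε / (n + q + 1)`, `Ext.low`. -/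
theorem main_W [Fintype L₁] [Fintype L₂] [Fintype L₃] [Fintype L₄] (A : AV k ι)
    {Γ₁ : L₁ → MvPolynomial (Option ι) k} {Γ₂ : L₂ → MvPolynomial (Option ι) k}
    {Γ₃ : L₃ → MvPolynomial (Option ι) k} {Γ₄ : L₄ → MvPolynomial (Option ι) k}
    {d₁ d₂ d₃ d₄ n p q R : ℕ} (g₁ : ∀ l, (Γ₁ l).IsHomogeneous d₁)
    (g₂ : ∀ l, (Γ₂ l).IsHomogeneous d₂) (g₃ : ∀ l, (Γ₃ l).IsHomogeneous d₃)
    (g₄ : ∀ l, (Γ₄ l).IsHomogeneous d₄)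
    (hc' : 2 ≤ ((Ideal.span (Set.range fun l => dh (Γ₁ l))).map (Ideal.Quotient.mk A.I)).height)
    (hd : n * d₁ + d₂ + q * d₄ + R = d₃ + p * d₄)
    (h : ∀ ω δ : ℕ, n * ord (cI A.I) (wt ω δ) Γ₁ + ord (cI A.I) (wt ω δ) Γ₂ +
      q * ord (cI A.I) (wt ω δ) Γ₄ + (R * δ : ℕ) ≤
        ord (cI A.I) (wt ω δ) Γ₃ + p * ord (cI A.I) (wt ω δ) Γ₄) {ε : ℝ} (hε : 0 < ε) :
    Eng A Γ₁ Γ₂ Γ₃ Γ₄ n p q R ε := by
  have hP := A.isPrime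
  have h₁ : ∃ l, dh (Γ₁ l) ∉ A.I := by
    by_contra h0
    have h1 : (Ideal.span (Set.range fun l => dh (Γ₁ l))).map (Ideal.Quotient.mk A.I) = ⊥ := by
      rw [Ideal.map_eq_bot_iff_le_ker, Ideal.mk_ker, Ideal.span_le]
      rintro _ ⟨l, rfl⟩
      exact not_not.1 fun hl => h0 ⟨l, hl⟩
    rw [h1, Ideal.height_bot] at hc'
    exact absurd hc' (by simp)
  by_cases hne : (∃ l, dh (Γ₂ l) ∉ A.I) ∧ (∃ l, dh (Γ₃ l) ∉ A.I) ∧ ∃ l, dh (Γ₄ l) ∉ A.I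
  swap
  · refine ⟨1, (Ideal.ne_top_iff_one _).1 hP.ne_top,
      fun T => ⟨0, 0, le_rfl, fun v _ hv _ k₂ k₃ k₄ => (hne ?_).elim⟩⟩
    have key : ∀ {L : Type} {Γ : L → MvPolynomial (Option ι) k},
        (fun l => eval (pt v) (Γ l)) ≠ 0 → ∃ l, dh (Γ l) ∉ A.I := fun h0 =>
      (Function.ne_iff.1 h0).imp fun l hl hm => hl ((eval_dh v _).symm.trans (hv _ hm))
    exact ⟨key k₂, key k₃, key k₄⟩
  obtain ⟨a₁, b₁, x₁⟩ := exists_ext h₁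
  obtain ⟨a₂, b₂, x₂⟩ := exists_ext hne.1
  obtain ⟨a₃, b₃, x₃⟩ := exists_ext hne.2.1
  obtain ⟨a₄, b₄, x₄⟩ := exists_ext hne.2.2
  have ha : n * a₁ + a₂ + q * a₄ + R ≤ a₃ + p * a₄ := by
    have h0 := h 0 1
    rw [ord_lo g₁ x₁, ord_lo g₂ x₂, ord_lo g₃ x₃, ord_lo g₄ x₄, mul_one] at h0
    exact_mod_cast h0
  have hb : b₃ + p * b₄ ≤ n * b₁ + b₂ + q * b₄ + R := by
    obtain ⟨c₁, rfl, o₁⟩ := ord_hi g₁ x₁
    obtain ⟨c₂, rfl, o₂⟩ := ord_hi g₂ x₂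
    obtain ⟨c₃, rfl, o₃⟩ := ord_hi g₃ x₃
    obtain ⟨c₄, rfl, o₄⟩ := ord_hi g₄ x₄
    have h0 := h 1 0
    rw [o₁, o₂, o₃, o₄, mul_zero] at h0
    have h1 : n * c₁ + c₂ + q * c₄ + 0 ≤ c₃ + p * c₄ := by exact_mod_cast h0
    simp only [mul_add] at hd
    omega
  have hε' : 0 < ε / (n + q + 1) := by positivity
  obtain ⟨Θ₁, t₁, r₁⟩ := x₁.gcd hc' hε'
  obtain ⟨Θ₂, t₂, r₂⟩ := x₂.prox hε'
  obtain ⟨Θ₄, t₄, r₄⟩ := x₄.prox hε'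
  obtain ⟨C₃, l₃⟩ := x₃.low
  obtain ⟨C₄, l₄⟩ := x₄.low
  refine ⟨Θ₁ * Θ₂ * Θ₄, fun hm => ?_, fun T => ?_⟩
  · simp only [hP.mul_mem_iff_mem_or_mem, t₁, t₂, t₄, or_self] at hm
  obtain ⟨c₁, u₁, r₁⟩ := r₁ T
  obtain ⟨c₂, u₂, r₂⟩ := r₂ T
  obtain ⟨c₄, u₄, r₄⟩ := r₄ T
  refine ⟨n * c₁ + c₂ + q * c₄ + n * a₁, n * c₁ + c₂ + q * c₄ + C₃ + p * C₄, by positivity,
    fun v v0 vz vΘ k₂ k₃ k₄ => ?_⟩
  simp only [map_mul, mul_ne_zero_iff] at vΘ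
  obtain ⟨k₁, i₁⟩ := r₁ v v0 vz vΘ.1.1
  refine ⟨by simpa only [eval_dh] using k₁, ?_⟩
  have i₂ := r₂ v v0 vz vΘ.1.2
  have i₃ := l₃ T v v0 vz (by simpa only [eval_dh] using k₃)
  have i₄ := mul_le_mul_of_nonneg_left (r₄ v v0 vz vΘ.2) (q.cast_nonneg (α := ℝ))
  have i₅ := mul_le_mul_of_nonneg_left (l₄ T v v0 vz (by simpa only [eval_dh] using k₄))
    (p.cast_nonneg (α := ℝ))
  have i₆ := mul_le_mul_of_nonneg_left ((qeng_gsum Γ₁ x₁.le T v0).trans (add_le_add i₁ le_rfl))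
    (n.cast_nonneg (α := ℝ))
  have i₇ : isum T (fun w => ln Γ₃ v w - R * ell w v - ln Γ₂ v w + p * ln Γ₄ v w -
      q * ln Γ₄ v w) ≤ isum T fun w => n * (a₁ * ell w v + ((b₁ : ℝ) - a₁) * max 0 (ell w v)) +
        mv a₂ b₂ (fun l => dh (Γ₂ l)) v w - mv a₃ b₃ (fun l => dh (Γ₃ l)) v w +
        q * mv a₄ b₄ (fun l => dh (Γ₄ l)) v w - p * mv a₄ b₄ (fun l => dh (Γ₄ l)) v w :=
    isum_mono T fun w _ _ => by
      rw [qeng_ln Γ₂ a₂ b₂, qeng_ln Γ₃ a₃ b₃, qeng_ln Γ₄ a₄ b₄]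
      linarith [qeng_pt ha hb (ell w v)]
  rw [isum_sub T _ fun w => p * mv a₄ b₄ _ v w, isum_add T _ fun w => q * mv a₄ b₄ _ v w,
    isum_sub T _ (mv a₃ b₃ _ v), isum_add T _ (mv a₂ b₂ _ v), isum_const_mul, isum_const_mul,
    isum_const_mul] at i₇
  have i₈ : ε / (n + q + 1) * hc v * (n + q + 1) = ε * hc v := by field_simp
  linarith

end Pool.Agent.Lib.MP_651af7_nt.Cq
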