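import Pool.Agent.Lib.MP_651af7_nt.Cq.Idl
import Pool.Agent.Lib.MP_651af7_nt.Cn.SFin

/-! The theorem on the cone for families with exact extreme degrees. -/

namespace Pool.Agent.Lib.MP_651af7_nt.Cq

open MvPolynomial Av
open Cn (mv Rng cnt hc ell)
open Pool.Agent.Lib.MP_8865d3_nt.Sv (isum osum)
open Vj (gsum)

variable {k ι L : Type} [Field k] {I : Ideal (MvPolynomial ι k)} {G : L → MvPolynomial ι k}
  {a b : ℕ}

/-- The set of degrees is finite (`totalDegree`) and not empty (`sum_homogeneousComponent`). -/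
theorem exists_ext [Finite L] (h : ∃ l, G l ∉ I) : ∃ a b, Ext I G a b := by
  have := Fintype.ofFinite L
  have h1 : {d | ∃ l, homogeneousComponent d (G l) ∉ I}.Finite :=
    (Set.finite_Iic (Finset.univ.sup fun l => (G l).totalDegree)).subset fun d ⟨l, hl⟩ =>
      le_trans (not_lt.1 fun h0 => hl (by rw [homogeneousComponent_eq_zero _ _ h0]; exact I.zero_mem))
        (Finset.le_sup (f := fun l => (G l).totalDegree) (Finset.mem_univ l))
  have h2 : {d | ∃ l, homogeneousComponent d (G l) ∉ I}.Nonempty := by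
    obtain ⟨l, hl⟩ := h
    by_contra h0
    rw [← sum_homogeneousComponent (G l)] at hl
    exact hl (Ideal.sum_mem _ fun d _ => not_not.1 fun h3 => h0 ⟨d, l, h3⟩)
  obtain ⟨a, ha, ha'⟩ := Set.exists_min_image _ id h1 h2
  obtain ⟨b, hb, hb'⟩ := Set.exists_max_image _ id h1 h2
  exact ⟨a, b, fun l d hd => ⟨ha' d ⟨l, hd⟩, hb' d ⟨l, hd⟩⟩, ha, hb⟩

theorem Ext.le (h : Ext I G a b) : a ≤ b := h.lo.elim fun l hl => (h.rng l a hl).2

/-- `G' l = ∑ d ∈ Icc a b, homogeneousComponent d (G l)`. -/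
theorem Ext.trunc (h : Ext I G a b) : ∃ G' : L → MvPolynomial ι k, (∀ l, Rng a b (G' l)) ∧
    (∀ l, G' l - G l ∈ I) ∧ ∀ l d, a ≤ d → d ≤ b →
      homogeneousComponent d (G' l) = homogeneousComponent d (G l) := by
  have key : ∀ l d, homogeneousComponent d (∑ e ∈ Finset.Icc a b, homogeneousComponent e (G l)) =
      if d ∈ Finset.Icc a b then homogeneousComponent d (G l) else 0 := fun l d => by
    rw [map_sum, Finset.sum_congr rfl fun e _ =>
      homogeneousComponent_of_mem (homogeneousComponent_mem e (G l)), Finset.sum_ite_eq]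
  refine ⟨fun l => ∑ e ∈ Finset.Icc a b, homogeneousComponent e (G l), fun l μ hμ => ?_,
    fun l => ?_, fun l d h1 h2 => by rw [key, if_pos (Finset.mem_Icc.2 ⟨h1, h2⟩)]⟩
  · by_contra h0
    have h1 := congrArg (coeff μ) (key l μ.degree)
    rw [coeff_homogeneousComponent, if_pos rfl, if_neg (mt Finset.mem_Icc.1 h0), coeff_zero] at h1
    exact mem_support_iff.1 hμ h1
  · rw [← sum_homogeneousComponent (_ - G l)]
    refine Ideal.sum_mem _ fun d _ => ?_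
    rw [map_sub, key]
    split_ifs with h0
    · rw [sub_self]
      exact I.zero_mem
    · rw [zero_sub]
      exact I.neg_mem (not_not.1 fun h1 => h0 (Finset.mem_Icc.2 (h.rng l d h1)))

theorem qext_eval {G' : L → MvPolynomial ι k} (h : ∀ l, G' l - G l ∈ I) {v : ι → k}
    (hv : ∀ f ∈ I, eval v f = 0) : (fun l => eval v (G' l)) = fun l => eval v (G l) :=
  funext fun l => sub_eq_zero.1 (by rw [← map_sub, hv _ (h l)])

theorem qext_mv {G' : L → MvPolynomial ι k} (h : ∀ l, G' l - G l ∈ I) {v : ι → k}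
    (hv : ∀ f ∈ I, eval v f = 0) : mv a b G' v = mv a b G v := funext fun w => by
  rw [mv, mv, qext_eval h hv]

variable [NumberField k] [Fintype ι] [Fintype L]

/-- `trunc`, `Cn.mv_ge`, `exists_ad_fam`, `ad_isum_le`; `mv a b G' v = mv a b G v`. -/
theorem Ext.low (h : Ext I G a b) : ∃ C : ℝ, ∀ (T : Finset (AbsoluteValue k ℝ)) (v : ι → k),
    v ≠ 0 → (∀ f ∈ I, eval v f = 0) → (fun l => eval v (G l)) ≠ 0 →
    -C ≤ isum T (mv a b G v) := by
  obtain ⟨G', h1, h2, -⟩ := h.trunc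
  obtain ⟨c, C, hA, hl⟩ := MP_8865d3_nt.Sv.exists_ad_fam G'
  refine ⟨C, fun T v hv hz h0 => ?_⟩
  have h3 := MP_8865d3_nt.Sv.isum_nonneg T (f := fun w => mv a b G' v w + Real.log (c w))
    fun w _ _ => Cn.mv_ge h1 hv (qext_eval h2 hz ▸ h0) (hl w)
  rw [MP_8865d3_nt.Sv.isum_add, qext_mv h2 hz] at h3
  linarith [MP_8865d3_nt.Sv.ad_isum_le hA T]

variable {A : AV k ι} {ε : ℝ}

omit [Fintype L] in
theorem qext_one {g : MvPolynomial ι k} (h : Ext A.I (fun _ : Unit => g) a b) : ∃ Θ ∉ A.I,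
    ∀ (T : Finset (AbsoluteValue k ℝ)) (ε : ℝ), 0 < ε → ∀ w, Adm w → ∃ c : ℕ, ∀ v : ι → k, v ≠ 0 →
      (∀ f ∈ A.I, eval v f = 0) → eval v Θ ≠ 0 → 0 < w (eval v g) ∧
      a * ell w v + ((b : ℝ) - a) * max 0 (ell w v) - Real.log (w (eval v g)) ≤
        ε * hc v + c * cnt T v + c := by
  obtain ⟨G', h1, h2, h3⟩ := h.trunc
  obtain ⟨_, ha⟩ := h.lo
  obtain ⟨_, hb⟩ := h.hi
  have hg : g ∉ A.I := fun h0 => ha (A.hom g h0 a)
  refine ⟨g * homogeneousComponent a g * homogeneousComponent b g, fun hm => ?_,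
    fun T ε hε w hw => ?_⟩
  · simp only [A.isPrime.mul_mem_iff_mem_or_mem, hg, ha, hb, or_self] at hm
  obtain ⟨c, h4⟩ := Cn.prox_part A (h1 ()) T hw hε
  refine ⟨c, fun v hv hz h0 => ?_⟩
  simp only [map_mul, mul_ne_zero_iff] at h0
  have h5 : eval v (G' ()) = eval v g := congrFun (qext_eval h2 hz) ()
  have h6 := h4 v hv hz (h5 ▸ h0.1.1) (h3 () a le_rfl h.le ▸ h0.1.2) (h3 () b h.le le_rfl ▸ h0.2)
  rw [mv, show (nm w fun _ : Unit => eval v (G' ())) = w (eval v (G' ())) from ciSup_const,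
    h5] at h6
  exact ⟨w.pos h0.1.1, h6⟩

/-- `la`, `lb` from `lo`, `hi`; `exists_ext` for the single polynomials `G la`, `G lb` gives the
degrees `(a, b₁)`, `(a₂, b)`; `trunc`, `Cn.prox_part` for both; `Θ` is the product of the two
polynomials and of their extreme components; `mv a b G v w` is at most the value for `G la` if
`ell w v ≤ 0` and for `G lb` otherwise; sum over `T` as in `Cn.both_parts`. -/
theorem Ext.prox (h : Ext A.I G a b) (hε : 0 < ε) : ∃ Θ ∉ A.I,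
    ∀ T : Finset (AbsoluteValue k ℝ), ∃ c : ℝ, 0 ≤ c ∧ ∀ v : ι → k, v ≠ 0 →
      (∀ f ∈ A.I, eval v f = 0) → eval v Θ ≠ 0 →
      isum T (mv a b G v) ≤ ε * hc v + c * cnt T v + c := by
  obtain ⟨la, ha⟩ := h.lo
  obtain ⟨lb, hb⟩ := h.hi
  obtain ⟨a₁, b₁, h1⟩ := exists_ext (G := fun _ : Unit => G la) ⟨(), fun h0 => ha (A.hom _ h0 a)⟩
  obtain ⟨a₂, b₂, h2⟩ := exists_ext (G := fun _ : Unit => G lb) ⟨(), fun h0 => hb (A.hom _ h0 b)⟩
  obtain rfl : a = a₁ := le_antisymm (h1.lo.elim fun _ h0 => (h.rng la _ h0).1) (h1.rng () a ha).1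
  obtain rfl : b = b₂ := le_antisymm (h2.rng () b hb).2 (h2.hi.elim fun _ h0 => (h.rng lb _ h0).2)
  obtain ⟨Θ₁, h3, h4⟩ := qext_one h1
  obtain ⟨Θ₂, h5, h6⟩ := qext_one h2
  refine ⟨Θ₁ * Θ₂, fun hm => (A.isPrime.mem_or_mem hm).elim h3 h5, fun T => ?_⟩
  obtain ⟨N, hN⟩ : ∃ N, N = ∑ w ∈ T, MP_8865d3_nt.Sv.mlt w := ⟨_, rfl⟩
  have hN0 : 0 ≤ N := hN ▸ Finset.sum_nonneg fun w _ => MP_8865d3_nt.Sv.mlt_nonneg w
  have hε' : 0 < ε / (N + 1) := by positivity
  choose! c₁ h7 using h4 T _ hε'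
  choose! c₂ h8 using h6 T _ hε'
  refine ⟨∑ w ∈ T, MP_8865d3_nt.Sv.mlt w * (c₁ w + c₂ w), Finset.sum_nonneg fun w _ =>
    mul_nonneg (MP_8865d3_nt.Sv.mlt_nonneg w) (by positivity), fun v hv hz h0 => ?_⟩
  rw [map_mul, mul_ne_zero_iff] at h0
  have t0 := Cn.cnt_nonneg T v
  have e2 : isum T (mv a b G v) ≤
      isum T fun w => ε / (N + 1) * hc v + (c₁ w + c₂ w) * cnt T v + (c₁ w + c₂ w) :=
    MP_8865d3_nt.Sv.isum_mono T fun w hw _ => by
      have n1 := (c₁ w).cast_nonneg (α := ℝ)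
      have n2 := (c₂ w).cast_nonneg (α := ℝ)
      rw [mv]
      rcases le_total (ell w v) 0 with h9 | h9
      · obtain ⟨g0, g1⟩ := h7 w hw v hv hz h0.1
        have g2 := Real.log_le_log g0 (le_nm w (fun l => eval v (G l)) la)
        rw [max_eq_left h9] at g1 ⊢
        linarith [mul_nonneg n2 t0]
      · obtain ⟨g0, g1⟩ := h8 w hw v hv hz h0.2
        have g2 := Real.log_le_log g0 (le_nm w (fun l => eval v (G l)) lb)
        rw [max_eq_right h9] at g1 ⊢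
        linarith [mul_nonneg n1 t0]
  rw [MP_8865d3_nt.Sv.isum_eq_sum T fun w => _ + _] at e2
  simp only [mul_add _ (_ + _ * cnt T v), mul_add _ (_ * hc v), Finset.sum_add_distrib,
    ← mul_assoc, ← Finset.sum_mul, ← hN] at e2
  have e4 : N * (ε / (N + 1)) * hc v ≤ ε * hc v := by
    refine mul_le_mul_of_nonneg_right ?_ (Cn.hc_nonneg v)
    rw [mul_div_assoc', div_le_iff₀ (by positivity)]
    linarith
  linarith

/-- `trunc`, `Cn.gcd_part`, `Cn.exists_theta`; the images of the two ideals are equal. -/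
theorem Ext.gcd (h : Ext A.I G a b)
    (hc' : 2 ≤ ((Ideal.span (Set.range G)).map (Ideal.Quotient.mk A.I)).height) (hε : 0 < ε) :
    ∃ Θ ∉ A.I, ∀ T : Finset (AbsoluteValue k ℝ), ∃ c : ℝ, 0 ≤ c ∧ ∀ v : ι → k, v ≠ 0 →
      (∀ f ∈ A.I, eval v f = 0) → eval v Θ ≠ 0 → (fun l => eval v (G l)) ≠ 0 ∧
      gsum (mv a b G v) ≤ ε * hc v + c * cnt T v + c := by
  obtain ⟨G', h1, h2, h3⟩ := h.trunc
  have e : (Ideal.span (Set.range G')).map (Ideal.Quotient.mk A.I) =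
      (Ideal.span (Set.range G)).map (Ideal.Quotient.mk A.I) := by
    rw [Ideal.map_span, Ideal.map_span, ← Set.range_comp, ← Set.range_comp]
    exact congrArg (fun f => Ideal.span (Set.range f)) (funext fun l => Ideal.Quotient.eq.2 (h2 l))
  obtain ⟨Θ, t, -, h4, h5⟩ := Cn.gcd_part A h1 (h.lo.imp fun l hl => h3 l a le_rfl h.le ▸ hl)
    (h.hi.imp fun l hl => h3 l b h.le le_rfl ▸ hl) (e ▸ hc') hε
  obtain ⟨Θ', t', -, h6, h7⟩ := Cn.exists_theta A hc'
  refine ⟨Θ * Θ', fun hm => (A.isPrime.mem_or_mem hm).elim h4 h6, fun T => ?_⟩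
  obtain ⟨c, h8⟩ := h5 T
  refine ⟨c, c.cast_nonneg, fun v hv hz h0 => ?_⟩
  rw [map_mul, mul_ne_zero_iff] at h0
  exact ⟨fun e => h0.2 (h7 v hv hz (congrFun e)), qext_mv h2 hz ▸ h8 v hv hz h0.1⟩

end Pool.Agent.Lib.MP_651af7_nt.Cq
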