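import Pool.Agent.Lib.MP_651af7_nt.Cq.Wr
import Pool.Agent.Lib.MP_651af7_nt.Cq.Eng
import Pool.Agent.Lib.MP_8865d3_nt.Lr.Ht
import Pool.Agent.Lib.MP_8865d3_nt.Sa.Mv

/-! From the inequality on the cone to the inequality on the variety. -/

namespace Pool.Agent.Lib.MP_651af7_nt.Cq

open MvPolynomial Module Height NumberField Av Bx
open Cn (pt cnt hc ell plc isum_plc)
open Pool.Agent.Lib.MP_8865d3_nt
open Sv (isum osum isum_add isum_sub isum_const_mul isum_add_osum)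
open Lr (ne_mul prp_val)
open Vj (gsum FinS)

variable {k ι κ : Type} [Field k]

/-- The point of the affine cone. -/
noncomputable def af (φ : Option ι → MvPolynomial κ k) (x : κ → k) : ι → k :=
  fun j => eval x (φ (some j)) / eval x (φ none)

/-- Both maps are defined at `x` and at its image, which lies outside the boundary. -/
structure Good (I : Ideal (MvPolynomial κ k)) (φ : Option ι → MvPolynomial κ k)
    (ψ : κ → MvPolynomial (Option ι) k) (x : κ → k) : Prop where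
  ne : x ≠ 0
  zero : ∀ P ∈ I, aeval x P = 0
  t0 : eval x (φ none) ≠ 0
  v0 : af φ x ≠ 0
  n₁ : ∃ i, aeval x (aeval φ (ψ i)) ≠ 0
  n₂ : ∃ j, aeval (pt (af φ x)) (aeval ψ (φ j)) ≠ 0

variable {A : AV k ι} {I : Ideal (MvPolynomial κ k)} {φ : Option ι → MvPolynomial κ k}
  {ψ : κ → MvPolynomial (Option ι) k} {x : κ → k} {r : ℕ} {σ : Fin r → ι → k}

theorem af_eq (h : eval x (φ none) ≠ 0) :
    (fun s => aeval x (φ s)) = fun s => eval x (φ none) * pt (af φ x) s := by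
  funext s
  cases s with
  | none => exact (mul_one _).symm
  | some j => exact (mul_div_cancel₀ _ h).symm

theorem ao_notMem (A : AV k ι) : X A.ao ∉ A.I := fun h => by
  have h1 := (AV.rep_zero (A := A) (R := k)).zero _ h
  rw [aeval_X] at h1
  exact one_ne_zero (A.o_ao.symm.trans h1)

variable [CharZero k] [Fintype ι] [Fintype κ]

theorem Good.zv (g : Good I φ ψ x) (h : Inv I (cI A.I) φ ψ) :
    ∀ P ∈ A.I, aeval (af φ x) P = 0 := by
  have h1 := zero_mul_of_hom A.hom (zero_cI.1 (h.zero g.zero)) (eval x (φ none))⁻¹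
  simp only [← div_eq_inv_mul] at h1
  exact h1

theorem Good.img (g : Good I φ ψ x) (h : Inv I (cI A.I) φ ψ) (h' : Inv (cI A.I) I ψ φ) :
    ∃ c : k, c ≠ 0 ∧ ∀ a, aeval (pt (af φ x)) (ψ a) = c * x a := by
  obtain ⟨c, hc, e⟩ := h.pt g.ne g.zero g.n₁.choose_spec
  obtain ⟨b, hb⟩ := h'.hom
  have h1 := pow_ne_zero b g.t0
  refine ⟨c / _, div_ne_zero hc h1, fun a => ?_⟩
  rw [div_mul_eq_mul_div, eq_div_iff h1, ← e, af_eq g.t0, aeval_mul_of_hom (hb a), mul_comm]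

theorem Good.rank (g : Good I φ ψ x) (hσ : A.LieBasis σ)
    (hI : ∀ P ∈ I, ∀ d, homogeneousComponent d P ∈ I) (h : Inv I (cI A.I) φ ψ)
    (h' : Inv (cI A.I) I ψ φ) : finrank k (tsp I x) = r + 1 + 1 := by
  obtain ⟨j, hj⟩ := g.n₂
  obtain ⟨a, ha⟩ := h.hom
  obtain ⟨b, hb⟩ := h'.hom
  have hz := g.zv h
  have h1 : aeval (fun s => aeval x (φ s)) (aeval ψ (φ j)) ≠ 0 := by
    rw [af_eq g.t0, aeval_mul_of_hom ((ha j).aeval ψ hb)]
    exact mul_ne_zero (pow_ne_zero _ g.t0) hj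
  have h2 := (h.rank hI (cI_hom A.hom) h' g.ne g.zero g.n₁.choose_spec h1).2
  have h3 := rank_cI (y := pt (af φ x)) hz
  have h4 := rank_tan hσ g.v0 hz
  rw [← tsp_eq] at h4
  rw [af_eq g.t0, tsp_smul (cI_hom A.hom) (zero_cI (y := pt (af φ x)).2 hz) g.t0] at h2
  exact h2.trans (h3.trans (congrArg (· + 1) h4))

theorem exists_good (hI : I.IsPrime) (h : Inv I (cI A.I) φ ψ) (h' : Inv (cI A.I) I ψ φ)
    {H : MvPolynomial ι k} (h0 : H ∉ A.I) :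
    ∃ (Θ : MvPolynomial κ k) (t : ℕ), Θ.IsHomogeneous t ∧ Θ ∉ I ∧ ∀ x : κ → k, x ≠ 0 →
      (∀ P ∈ I, eval x P = 0) → eval x Θ ≠ 0 → Good I φ ψ x ∧ eval (af φ x) H ≠ 0 := by
  have hP := cI_prime A.tr_prime
  obtain ⟨a, ha⟩ := h.hom
  obtain ⟨b, hb⟩ := h'.hom
  obtain ⟨i, hi⟩ := h.ne
  obtain ⟨j, hj⟩ := h'.ne
  obtain ⟨H', hH, e⟩ := Cn.exists_hmg (R := H) fun μ hμ => le_totalDegree hμ
  have h1 := ((hH.mul ((ha j).aeval ψ hb)).mul (isHomogeneous_X k none)).mul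
    (isHomogeneous_X k (some A.ao))
  refine ⟨_, _, (h1.aeval φ ha).mul ((hb i).aeval φ ha), fun e' => (hI.mem_or_mem e').elim
    (h'.pull hP h1 fun e'' => ?_) hi, fun x x0 xz xΘ => ?_⟩
  · simp only [hP.mul_mem_iff_mem_or_mem, hj, none_notMem A.tr_prime.ne_top, or_false] at e''
    refine e''.elim (fun h2 => h0 (e ▸ dh_mem h2)) fun h2 => ao_notMem A ?_
    simpa [dh] using dh_mem h2
  · rw [← aeval_eq_eval, map_mul, trans_aev, mul_ne_zero_iff] at xΘ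
    have t0 : eval x (φ none) ≠ 0 := by
      have h2 := xΘ.1
      simp only [map_mul, mul_ne_zero_iff, aeval_X] at h2
      exact h2.1.2
    have h2 := xΘ.1
    rw [af_eq t0, aeval_mul_of_hom h1] at h2
    simp only [map_mul, mul_ne_zero_iff, aeval_X] at h2
    exact ⟨⟨x0, xz, t0, Function.ne_iff.2 ⟨A.ao, h2.2.2⟩, ⟨i, xΘ.2⟩, j, h2.2.1.1.2⟩,
      e ▸ (eval_dh _ H').trans_ne h2.2.1.1.1⟩

variable [NumberField k] {L L' T : Type} [Fintype L] [Fintype L'] [Fintype T] {d : ℕ}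
  {Ψ : T → κ → MvPolynomial (Option ι) k}

/-- The canonical height through the Wronskians. -/
theorem hK_eq (hσ : A.LieBasis σ) (hI : ∀ P ∈ I, ∀ d, homogeneousComponent d P ∈ I)
    (h : Inv I (cI A.I) φ ψ) (h' : Inv (cI A.I) I ψ φ) (hΨ : ∀ t i, (Ψ t i).IsHomogeneous d)
    (hp : ∀ t i l, Ψ t i * ψ l - Ψ t l * ψ i ∈ cI A.I) (g : Good I φ ψ x)
    (h0 : (fun q : T × κ => eval (pt (af φ x)) (Ψ q.1 q.2)) ≠ 0) :
    (fun q : ι × T × (Fin (r + 1 + 1) → κ) =>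
      eval (pt (af φ x)) (cwr A σ (Ψ q.2.1) q.1 q.2.2)) ≠ 0 ∧
    ∀ β : Fin (r + 1 + 1) → κ → k, LinearIndependent k β → (∀ l, β l ∈ tsp I x) →
      hK x β = gsum (ln (fun q : ι × T × (Fin (r + 1 + 1) → κ) => cwr A σ (Ψ q.2.1) q.1 q.2.2)
        (af φ x)) - (r + 1 : ℕ) * gsum (fun w => ell w (af φ x)) -
        (r + 1 + 1 : ℕ) * gsum (ln (fun q : T × κ => Ψ q.1 q.2) (af φ x)) := by
  have hz := zero_cI.2 (show ∀ P ∈ A.I, aeval (fun a => pt (af φ x) (some a)) P = 0 from g.zv h)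
  have y0 := g.v0
  obtain ⟨j₀, hn⟩ := g.n₂
  obtain ⟨c, w, hc, hw, hi, h1⟩ := exists_cframe (κ := κ) hσ y0 (g.zv h)
  obtain ⟨c', hc', e⟩ := g.img h h'
  generalize af φ x = v at *
  have e' : (fun i => aeval (pt v) (ψ i)) = c' • x := funext e
  have ψ0 : (fun i => aeval (pt v) (ψ i)) ≠ 0 := e' ▸ smul_ne_zero hc' g.ne
  choose s h2 h3 using fun t => prp_val (hp t) hz ψ0
  have h4 : (fun q : T × κ => eval (pt v) (Ψ q.1 q.2)) = fun q => s q.1 * (c' • x) q.2 :=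
    funext fun q => (h2 q.1 q.2).trans (by rw [e]; rfl)
  have h5 : s ≠ 0 := fun h => h0 (h4.trans (funext fun p => by rw [h]; exact zero_mul _))
  have h6 : ∀ {α : Type} {z : α → k} (n : ℕ), z ≠ 0 → z ^ n ≠ 0 := fun n hz =>
    Function.ne_iff.2 ((Function.ne_iff.1 hz).imp fun _ h => pow_ne_zero n h)
  have hf : LinearIndependent k (fr ψ (pt v) w) := h'.indep h hz hn ψ0 hw hi
  have hπ := minors_ne_zero hf
  have h7 := ne_mul (h6 (r + 2) h5) hπ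
  have h8 : (fun q : ι × T × (Fin (r + 1 + 1) → κ) => eval (pt v) (cwr A σ (Ψ q.2.1) q.1 q.2.2)) =
      c • fun q => (v ^ (r + 1)) q.1 * ((s ^ (r + 2)) q.2.1 * minors (fr ψ (pt v) w) q.2.2) :=
    funext fun q => h1 (hΨ q.2.1) (h2 _) (fun j => h3 _ _ (hw j)) q.1 q.2.2
  have h10 := smul_ne_zero hc (ne_mul (h6 (r + 1) y0) h7)
  rw [← h8] at h10
  refine ⟨h10, fun β β1 β2 => ?_⟩
  have hm : ∀ l, fr ψ (pt v) w l ∈ tsp I x := fun l => by
    rw [← tsp_smul hI g.zero hc', ← funext e]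
    exact Fin.cases (tsp_self hI (h'.zero hz)) (fun l => h'.tan (hw l)) l
  obtain ⟨c'', hc'', h11⟩ := minors_prop (g.rank hσ hI h h') hf β1 hm β2
  unfold ln
  rw [gsum_nm h0, gsum_nm h10, Cn.gsum_ell y0, h8, h4, logHeight_smul_eq_logHeight _ hc,
    logHeight_fun_mul_eq (h6 _ y0) h7, logHeight_fun_mul_eq (h6 _ h5) hπ, logHeight_pow,
    logHeight_pow, logHeight_fun_mul_eq h5 (smul_ne_zero hc' g.ne), hK, h11,
    logHeight_smul_eq_logHeight _ hc', logHeight_smul_eq_logHeight _ hc'']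
  push_cast
  ring

omit [CharZero k] in
theorem lam_ln (w : AbsoluteValue k ℝ) {D : L → MvPolynomial κ k} {e : ℕ}
    (hD : ∀ l, (D l).IsHomogeneous e) {c : k} (hc : c ≠ 0) (hx : x ≠ 0) {v : ι → k}
    (h : ∀ l, aeval (pt v) (ψ l) = c * x l) (h0 : (fun l => eval x (D l)) ≠ 0) :
    lam w D e x = e * ln ψ v w - ln (fun l => aeval ψ (D l)) v w := by
  have h1 : (fun l => eval (pt v) (ψ l)) = fun l => c * x l := funext h
  simp only [ln, loc_eval (hD _) h, h1]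
  rw [Lr.log_nm_mul w (pow_ne_zero e hc) h0, Lr.log_nm_mul w hc hx, map_pow, Real.log_pow, lam]
  change Real.log (nm w x ^ e / nm w fun l => eval x (D l)) = _
  rw [Real.log_div (pow_pos (nm_pos w hx) e).ne' (nm_pos w h0).ne', Real.log_pow]
  ring

omit [CharZero k] [Fintype κ] in
/-- Outside `S` the forms are bounded by the counting function. -/
theorem osum_ln {Γ : L → MvPolynomial (Option ι) k} (hΓ : ∀ l, (Γ l).IsHomogeneous d) (n : ℕ) :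
    ∃ C : ℝ, ∀ (S : Finset (AbsoluteValue k ℝ)) (v : ι → k), v ≠ 0 →
      (fun l => eval (pt v) (Γ l)) ≠ 0 →
      osum S (ln Γ v) - n * osum S (fun w => ell w v) ≤ (d + n : ℕ) * cnt S v + C := by
  obtain ⟨c, C, hc, h⟩ := Sa.mv_ge hΓ
  refine ⟨C, fun S v v0 h0 => ?_⟩
  have f1 := Cn.finS_ell v
  have f2 : FinS (ln Γ v) := finS_nm _
  have h1 := Sv.osum_mono S (Sv.finS_sub f2 (f1.const_mul n))
    (((Sv.finS_abs f1).const_mul (d + n : ℕ)).add hc.fin) fun w _ _ => by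
      have h2 := h _ (Cn.pt_ne v) h0 w
      rw [Sa.mv, Cn.log_nm_pt w v0] at h2
      have h3 := mul_le_mul_of_nonneg_left (max_le (abs_nonneg _) (le_abs_self (ell w v)))
        (Nat.cast_nonneg (α := ℝ) d)
      have h4 := mul_le_mul_of_nonneg_left (neg_abs_le (ell w v)) (Nat.cast_nonneg (α := ℝ) n)
      rw [ln]
      push_cast
      linarith
  rw [Sv.osum_sub S f2 (f1.const_mul n), Sv.osum_add S ((Sv.finS_abs f1).const_mul _) hc.fin,
    Sv.osum_const_mul S f1, Sv.osum_const_mul S (Sv.finS_abs f1)] at h1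
  exact h1.trans (add_le_add le_rfl (Sv.ad_osum_le hc S))

/-- The conclusion over the field of definition. -/
def Cc (I : Ideal (MvPolynomial κ k)) (g : ℕ) (φ : Option ι → MvPolynomial κ k)
    (F : L → MvPolynomial κ k) (e : ℕ) (G : L' → MvPolynomial κ k) (e' : ℕ) (ε : ℝ) : Prop :=
  ∃ (Θ : MvPolynomial κ k) (t : ℕ), Θ.IsHomogeneous t ∧ Θ ∉ I ∧
    ∀ S : Finset (FinitePlace k), ∃ c C : ℝ, 0 ≤ c ∧ ∀ x : κ → k, x ≠ 0 →
      (∀ P ∈ I, eval x P = 0) → eval x Θ ≠ 0 → (fun l => eval x (F l)) ≠ 0 →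
      (fun l => eval x (G l)) ≠ 0 →
      (eval x (φ none) ≠ 0 ∧ af φ x ≠ 0) ∧ finrank k (tsp I x) = g + 1 ∧
      ∀ β : Fin (g + 1) → κ → k, LinearIndependent k β → (∀ l, β l ∈ tsp I x) →
      hK x β + (∑ w : InfinitePlace k, w.mult * (lam w.1 F e x - lam w.1 G e' x) +
        ∑ w ∈ S, (lam w.1 F e x - lam w.1 G e' x)) ≤
        ε * logHeight x + c * cnt (plc S) (af φ x) + C

theorem main_of (hσ : A.LieBasis σ) (hI : ∀ P ∈ I, ∀ d, homogeneousComponent d P ∈ I)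
    (hI' : I.IsPrime) (h : Inv I (cI A.I) φ ψ) (h' : Inv (cI A.I) I ψ φ)
    (hΨ : ∀ t i, (Ψ t i).IsHomogeneous d) (hp : ∀ t i l, Ψ t i * ψ l - Ψ t l * ψ i ∈ cI A.I)
    {F : L → MvPolynomial κ k} {G : L' → MvPolynomial κ k} {e e' : ℕ}
    (hF : ∀ l, (F l).IsHomogeneous e) (hG : ∀ l, (G l).IsHomogeneous e')
    (hE : ∀ ε : ℝ, 0 < ε → Eng A (fun q : T × κ => Ψ q.1 q.2) (fun l => aeval ψ (F l))
      (fun q : L' × ι × T × (Fin (r + 1 + 1) → κ) =>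
        aeval ψ (G q.1) * cwr A σ (Ψ q.2.2.1) q.2.1 q.2.2.2) ψ (r + 1 + 1) e e' (r + 1) ε)
    (h0 : ∃ t i, dh (Ψ t i) ∉ A.I) {ε : ℝ} (hε : 0 < ε) : Cc I (r + 1) φ F e G e' ε := by
  obtain ⟨a₁, h₁⟩ := h.hom
  obtain ⟨C₁, k₁⟩ := logHeight_eval_le' h₁
  have hε' : 0 < ε / (a₁ + 1) := by positivity
  obtain ⟨Θ₀, e2, e3⟩ := hE _ hε'
  obtain ⟨t₀, i₀, h0⟩ := h0
  obtain ⟨Θ, t, t1, t2, t3⟩ := exists_good hI' h h' (H := Θ₀ * dh (Ψ t₀ i₀)) fun hm =>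
    (A.tr_prime.mem_or_mem hm).elim e2 h0
  obtain ⟨C₃, k₃⟩ := osum_ln (fun q : ι × T × (Fin (r + 1 + 1) → κ) =>
    cwr_hom (A := A) (σ := σ) (hΨ q.2.1) q.1 q.2.2) (r + 1)
  refine ⟨Θ, t, t1, t2, fun S => ?_⟩
  obtain ⟨c, C, c0, e4⟩ := e3 (plc S)
  refine ⟨c + ((r + 2) * d + (r + 1) + (r + 1) : ℕ), C + C₃ + ε / (a₁ + 1) * C₁, by positivity,
    fun x x0 xz xΘ xF xG => ?_⟩
  obtain ⟨g, t4⟩ := t3 x x0 xz xΘ
  refine ⟨⟨g.t0, g.v0⟩, g.rank hσ hI h h', fun β β1 β2 => ?_⟩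
  have k₄ : hc (af φ x) ≤ C₁ + a₁ * logHeight x := by
    have k₅ := k₁ x
    rwa [show (fun s => eval x (φ s)) = eval x (φ none) • pt (af φ x) from af_eq g.t0,
      logHeight_smul_eq_logHeight _ g.t0] at k₅
  obtain ⟨c', hc', e6⟩ := g.img h h'
  have n₃ : ∀ {L : Type} {D : L → MvPolynomial κ k} {e : ℕ}, (∀ l, (D l).IsHomogeneous e) →
      (fun l => eval x (D l)) ≠ 0 → (fun l => eval (pt (af φ x)) (aeval ψ (D l))) ≠ 0 :=
    fun hD h0 => Function.ne_iff.2 ((Function.ne_iff.1 h0).imp fun l hl => by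
      rw [loc_eval (hD l) e6]
      exact mul_ne_zero (pow_ne_zero _ hc') hl)
  have n₄ : (fun l => eval (pt (af φ x)) (ψ l)) ≠ 0 :=
    Function.ne_iff.2 ((Function.ne_iff.1 x0).imp fun l hl => (e6 l).trans_ne (mul_ne_zero hc' hl))
  rw [map_mul, mul_ne_zero_iff, eval_dh] at t4
  obtain ⟨n₂, e5⟩ := hK_eq hσ hI h h' hΨ hp g (Function.ne_iff.2 ⟨(t₀, i₀), t4.2⟩)
  obtain ⟨-, e7⟩ := e4 _ g.v0 (g.zv h) t4.1 (n₃ hF xF)
    (by simpa only [map_mul] using ne_mul (n₃ hG xG) n₂) n₄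
  have e8 := k₃ (plc S) _ g.v0 n₂
  have e9 : ∀ w, ln (fun q : L' × ι × T × (Fin (r + 1 + 1) → κ) =>
      aeval ψ (G q.1) * cwr A σ (Ψ q.2.2.1) q.2.1 q.2.2.2) (af φ x) w =
      ln (fun l => aeval ψ (G l)) (af φ x) w + ln (fun q : ι × T × (Fin (r + 1 + 1) → κ) =>
        cwr A σ (Ψ q.2.1) q.1 q.2.2) (af φ x) w := fun w => by
    have h1 := Sa.mv_mul (d := 0) (d' := 0) w (n₃ hG xG) n₂
    simp only [Sa.mv, Nat.cast_zero, zero_mul, zero_sub, add_zero] at h1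
    simp only [ln]
    linarith
  simp only [e9, isum_add, isum_sub, isum_const_mul] at e7
  rw [← isum_plc S fun v => lam v F e x - lam v G e' x, e5 β β1 β2,
    ← isum_add_osum (plc S) (Cn.finS_ell _), ← isum_add_osum (plc S) (f := ln (fun q :
      ι × T × (Fin (r + 1 + 1) → κ) => cwr A σ (Ψ q.2.1) q.1 q.2.2) _) (finS_nm _)]
  simp only [lam_ln _ hF hc' x0 e6 xF, lam_ln _ hG hc' x0 e6 xG, isum_sub, isum_const_mul]
  have e10 := mul_le_mul_of_nonneg_left k₄ hε'.le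
  have e11 : ε / (a₁ + 1) * (a₁ * logHeight x) ≤ ε * logHeight x := by
    rw [← mul_assoc]
    refine mul_le_mul_of_nonneg_right ?_ (logHeight_nonneg x)
    rw [div_mul_eq_mul_div, div_le_iff₀ (by positivity)]
    nlinarith
  linarith

end Pool.Agent.Lib.MP_651af7_nt.Cq
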