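import Pool.Agent.Lib.MP_651af7_nt.Cn.SPar
import Pool.Agent.Lib.MP_651af7_nt.Bx.Vec
import Pool.Agent.Lib.MP_651af7_nt.Bx.Bir

/-! The ideal of the projective cone. -/

namespace Pool.Agent.Lib.MP_651af7_nt.Cq

open MvPolynomial Module Av Bx
open Cn (pt)

variable {k ι : Type} [Field k]

/-- The ideal of the projective cone, with the new variable `none`. -/
noncomputable def cI (I : Ideal (MvPolynomial ι k)) : Ideal (MvPolynomial (Option ι) k) :=
  I.map (rename some)

/-- Setting the new variable equal to one. -/
noncomputable def dh : MvPolynomial (Option ι) k →ₐ[k] MvPolynomial ι k :=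
  aeval (pt (X : ι → MvPolynomial ι k))

/-- The weight `ω` for the new variable, `δ` for the others. -/
def wt (ω δ : ℕ) : Option ι → ℕ := fun s => s.elim ω fun _ => δ

/-- `a` and `b` are the least and the largest degree that occur in the family modulo `I`. -/
structure Ext {L : Type} (I : Ideal (MvPolynomial ι k)) (G : L → MvPolynomial ι k) (a b : ℕ) :
    Prop where
  rng : ∀ l d, homogeneousComponent d (G l) ∉ I → a ≤ d ∧ d ≤ b
  lo : ∃ l, homogeneousComponent a (G l) ∉ I
  hi : ∃ l, homogeneousComponent b (G l) ∉ I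

variable {I : Ideal (MvPolynomial ι k)}

theorem eval_dh (v : ι → k) (f : MvPolynomial (Option ι) k) : eval v (dh f) = eval (pt v) f :=
  Cn.aeval_dh v f

theorem dh_rename (f : MvPolynomial ι k) : dh (rename some f) = f := by
  rw [dh, aeval_rename]
  exact aeval_X_left_apply f

theorem dh_mem {f : MvPolynomial (Option ι) k} (h : f ∈ cI I) : dh f ∈ I := by
  have h1 : cI I ≤ I.comap dh := Ideal.map_le_iff_le_comap.2 fun g hg => by
    rwa [Ideal.mem_comap, Ideal.mem_comap, dh_rename]
  exact h1 h

theorem qidl_split (m : Option ι →₀ ℕ) :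
    m = Finsupp.single none (m none) + m.some.mapDomain some := by
  ext a
  cases a with
  | none => simp [Finsupp.mapDomain_of_notMem_range]
  | some a => simp [Finsupp.mapDomain_apply (Option.some_injective ι)]

theorem qidl_mono (m : Option ι →₀ ℕ) (r : k) :
    monomial m r = X none ^ m none * rename some (monomial m.some r) := by
  rw [rename_monomial, ← monomial_single_add, ← qidl_split]

theorem qidl_deg (m : Option ι →₀ ℕ) : m.degree = m none + m.some.degree := by
  conv_lhs => rw [qidl_split m, map_add, Finsupp.degree_single, Finsupp.degree_mapDomain]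

/-- A form of degree `d` is `∑ n ≤ d, X none ^ (d - n) * rename some (homogeneousComponent n (dh f))`
(induction over monomials, or `optionEquivLeft`). -/
theorem eq_sum_dh {f : MvPolynomial (Option ι) k} {d : ℕ} (hf : f.IsHomogeneous d) :
    f = ∑ n ∈ Finset.range (d + 1),
      X none ^ (d - n) * rename some (homogeneousComponent n (dh f)) := by
  induction hf using IsWeightedHomogeneous.induction_on with
  | zero => simp
  | add p q _ _ hp hq =>
    simp only [map_add, mul_add, Finset.sum_add_distrib]
    rw [← hp, ← hq]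
  | monomial m r hr =>
    have hd : m none + m.some.degree = d := by
      rw [← qidl_deg, Finsupp.degree_eq_weight_one, ← Pi.one_def, hr]
    have h1 : dh (monomial m r) = monomial m.some r := by
      rw [qidl_mono, map_mul, map_pow, dh_rename]
      simp [dh, pt]
    rw [h1, Finset.sum_eq_single m.some.degree]
    · rw [homogeneousComponent_eq_self (isHomogeneous_monomial r rfl), ← hd, Nat.add_sub_cancel,
        ← qidl_mono]
    · intro n _ hn
      rw [homogeneousComponent_of_mem (isHomogeneous_monomial r rfl), if_neg hn, map_zero,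
        mul_zero]
    · intro hn
      exact absurd (Finset.mem_range.2 (by omega)) hn

theorem mem_cI (hI : ∀ P ∈ I, ∀ d, homogeneousComponent d P ∈ I) {f : MvPolynomial (Option ι) k}
    {d : ℕ} (hf : f.IsHomogeneous d) : f ∈ cI I ↔ dh f ∈ I :=
  ⟨dh_mem, fun h => eq_sum_dh hf ▸ Ideal.sum_mem _ fun n _ =>
    Ideal.mul_mem_left _ _ (Ideal.mem_map_of_mem _ (hI _ h n))⟩

/-- `cI I` is spanned by the forms `rename some (homogeneousComponent n g)`, `g ∈ I`
(`Ideal.homogeneous_span`, or `Submodule.span_induction` with `rep2_comp` of `Bx/Rep`). -/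
theorem cI_hom (hI : ∀ P ∈ I, ∀ d, homogeneousComponent d P ∈ I) :
    ∀ P ∈ cI I, ∀ d, homogeneousComponent d P ∈ cI I := by
  let _ : GradedAlgebra (homogeneousSubmodule (Option ι) k) := gradedAlgebra
  have h1 : cI I = Ideal.span {f | f ∈ cI I ∧ ∃ d, f.IsHomogeneous d} := by
    refine le_antisymm (Ideal.map_le_iff_le_comap.2 fun g hg => ?_)
      (Ideal.span_le.2 fun f hf => hf.1)
    rw [Ideal.mem_comap, ← sum_homogeneousComponent g, map_sum]
    exact Ideal.sum_mem _ fun n _ => Ideal.subset_span ⟨Ideal.mem_map_of_mem _ (hI g hg n), n,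
      (homogeneousComponent_isHomogeneous n g).rename_isHomogeneous⟩
  have h2 : (cI I).IsHomogeneous (homogeneousSubmodule (Option ι) k) := by
    rw [h1]
    exact Ideal.homogeneous_span _ _ fun f hf => hf.2
  intro P hP d
  have h3 := h2 d hP
  rwa [show (DirectSum.decompose (homogeneousSubmodule (Option ι) k) P d :
    MvPolynomial (Option ι) k) = homogeneousComponent d P from
      decomposition.decompose'_apply P d] at h3

/-- `optionEquivLeft`, `Ideal.isPrime_map_C_of_isPrime`. -/
theorem cI_prime (hI : I.IsPrime) : (cI I).IsPrime := by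
  have h1 : ∀ f : MvPolynomial ι k, (optionEquivLeft k ι).symm (Polynomial.C f) =
      rename some f := fun f => by
    induction f using MvPolynomial.induction_on with
    | C a => simp
    | add p q hp hq => simp only [map_add, hp, hq]
    | mul_X p i hp => simp only [map_mul, hp, optionEquivLeft_symm_C_X, rename_X]
  have h2 : cI I = (I.map (Polynomial.C : _ →+* Polynomial (MvPolynomial ι k))).map
      ((optionEquivLeft k ι).symm.toRingEquiv : _ →+* MvPolynomial (Option ι) k) := by
    rw [Ideal.map_map, cI, Ideal.map, Ideal.map]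
    exact congrArg (fun φ => Ideal.span (φ '' (I : Set (MvPolynomial ι k))))
      (funext fun f => (h1 f).symm)
  rw [h2]
  exact Ideal.map_isPrime_of_equiv (optionEquivLeft k ι).symm.toRingEquiv

theorem zero_cI {R : Type} [CommRing R] [Algebra k R] {y : Option ι → R} :
    (∀ P ∈ cI I, aeval y P = 0) ↔ ∀ P ∈ I, aeval (fun a => y (some a)) P = 0 := by
  refine ⟨fun h P hP => ?_, fun h P hP => ?_⟩
  · have h1 := h _ (Ideal.mem_map_of_mem _ hP)
    rwa [aeval_rename] at h1
  · have h1 : cI I ≤ RingHom.ker (aeval y : MvPolynomial (Option ι) k →ₐ[k] R) :=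
      Ideal.map_le_iff_le_comap.2 fun g hg => by
        rw [Ideal.mem_comap, RingHom.mem_ker, aeval_rename]
        exact h g hg
    exact h1 hP

theorem none_notMem (hI : I ≠ ⊤) : X none ∉ cI I := fun h =>
  hI ((Ideal.eq_top_iff_one _).2 (by simpa [dh] using dh_mem h))

variable [Fintype ι] {F : Type} [Field F] [Algebra k F] {y : Option ι → F}

theorem qidl_tsp {σ : Type} [Fintype σ] {J : Ideal (MvPolynomial σ k)} {x v : σ → F} :
    v ∈ tsp J x ↔ ∀ P ∈ J, dP x v P = 0 := by
  simp only [dP_eq_sum]
  rfl

omit [Fintype ι] in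
theorem qidl_dP (w : Option ι → F) (P : MvPolynomial ι k) :
    dP y w (rename some P) = dP (fun a => y (some a)) (fun a => w (some a)) P := by
  rw [dP, dP, aeval_rename]
  rfl

/-- `mem_tsp`, `dP_comp` or `dP_mul_pol` with `Submodule.span_induction`. -/
theorem mem_tsp_cI (hy : ∀ P ∈ I, aeval (fun a => y (some a)) P = 0) {w : Option ι → F} :
    w ∈ tsp (cI I) y ↔ (fun a => w (some a)) ∈ tsp I fun a => y (some a) := by
  rw [qidl_tsp, qidl_tsp]
  refine ⟨fun h P hP => ?_, fun h P hP => ?_⟩
  · rw [← qidl_dP]
    exact h _ (Ideal.mem_map_of_mem _ hP)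
  · induction hP using Submodule.span_induction with
    | mem f hf =>
      obtain ⟨g, hg, rfl⟩ := hf
      rw [qidl_dP]
      exact h g hg
    | zero => simpa using dP_C y w (0 : k)
    | add f g _ _ hf hg => rw [dP_add_pol, hf, hg, add_zero]
    | smul c f hf h1 =>
      rw [smul_eq_mul, dP_mul_pol, h1, zero_cI.2 hy f hf, mul_zero, mul_zero, add_zero]

/-- `tsp (cI I) y` is `F × tsp I _`. -/
theorem rank_cI (hy : ∀ P ∈ I, aeval (fun a => y (some a)) P = 0) :
    finrank F (tsp (cI I) y) = finrank F (tsp I fun a => y (some a)) + 1 := by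
  let e : tsp (cI I) y ≃ₗ[F] (tsp I fun a => y (some a)) × F :=
    { toFun := fun w => (⟨fun a => w.1 (some a), (mem_tsp_cI hy).1 w.2⟩, w.1 none)
      map_add' := fun _ _ => rfl
      map_smul' := fun _ _ => rfl
      invFun := fun v => ⟨fun a => a.elim v.2 v.1.1, (mem_tsp_cI hy).2 v.1.2⟩
      left_inv := fun w => Subtype.ext (funext fun a => by cases a <;> rfl)
      right_inv := fun _ => rfl }
  rw [e.finrank_eq, finrank_prod, finrank_self]

end Pool.Agent.Lib.MP_651af7_nt.Cq
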