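import Pool.Agent.Lib.MP_651af7_nt.Cq.Ord
import Pool.Agent.Lib.MP_651af7_nt.Bx.Wr
import Pool.Agent.Lib.MP_8865d3_nt.Lr.Wr

/-! Vector fields and Wronskians on the cone. Model: `MP_8865d3_nt/Sa/LWr`. -/

namespace Pool.Agent.Lib.MP_651af7_nt.Cq

open MvPolynomial Module Av Bx
open Cn (pt)
open Pool.Agent.Lib.MP_8865d3_nt.Sa (sg)

variable {k ι κ : Type} [Field k] {r : ℕ}

/-- The field `t * v b * ∂ / ∂ t` and the invariant fields. -/
noncomputable def cvf (A : AV k ι) (σ : Fin r → ι → k) (b : ι) :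
    Fin (r + 1) → Option ι → MvPolynomial (Option ι) k :=
  Fin.cons (fun s => s.elim (X none * X (some b)) fun _ => 0)
    fun j s => s.elim 0 fun a => rename some (vf A (σ j) b a)

/-- The Wronskian forms. -/
noncomputable def cwr (A : AV k ι) (σ : Fin r → ι → k) (ψ : κ → MvPolynomial (Option ι) k) (b : ι) :
    (Fin (r + 1 + 1) → κ) → MvPolynomial (Option ι) k :=
  minors (Fin.cons ψ fun j i =>
    dP (X : Option ι → MvPolynomial (Option ι) k) (cvf A σ b j) (ψ i))

variable [CharZero k] [Fintype ι] {A : AV k ι} {σ : Fin r → ι → k}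

theorem qwr_hom (b : ι) (j : Fin (r + 1)) (s : Option ι) : (cvf A σ b j s).IsHomogeneous 2 := by
  refine Fin.cases ?_ (fun j => ?_) j <;> cases s
  · exact (isHomogeneous_X _ _).mul (isHomogeneous_X _ _)
  · exact isHomogeneous_zero _ _ _
  · exact isHomogeneous_zero _ _ _
  · exact (vf_hom _ _ _).rename_isHomogeneous

/-- `vf_hom`, `Lr.dP_hom`, `minors_hom`. -/
theorem cwr_hom {ψ : κ → MvPolynomial (Option ι) k} {d : ℕ} (h : ∀ i, (ψ i).IsHomogeneous d)
    (b : ι) (S : Fin (r + 1 + 1) → κ) :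
    (cwr A σ ψ b S).IsHomogeneous ((r + 2) * d + (r + 1)) := by
  have h1 := minors_hom (δ := Fin.cons d fun _ : Fin (r + 1) => d + 1)
    (b := Fin.cons ψ fun j i => dP (X : Option ι → MvPolynomial (Option ι) k) (cvf A σ b j) (ψ i))
    (fun j a => Fin.cases (h a) (fun j =>
      Pool.Agent.Lib.MP_8865d3_nt.Lr.dP_hom (w := 1) (δ := 1) (qwr_hom b j) (h a)) j) S
  rwa [Fin.sum_univ_succ, Fin.cons_zero, Finset.sum_congr rfl fun j _ => Fin.cons_succ _ _ j,
    Finset.sum_const, Finset.card_univ, Fintype.card_fin, smul_eq_mul,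
    show d + (r + 1) * (d + 1) = (r + 2) * d + (r + 1) by ring] at h1

/-- As `Sa.vf_tan`: evaluate at a generic point of `cI A.I` (`tr_point`, `cI_prime`),
`exists_frame`, `mem_tsp_cI`. -/
theorem cvf_tan (hσ : A.LieBasis σ) (b : ι) (j : Fin (r + 1)) : ∀ P ∈ cI A.I,
    dP (X : Option ι → MvPolynomial (Option ι) k) (cvf A σ b j) P ∈ cI A.I := by
  intro P hP
  have := cI_prime A.tr_prime
  obtain ⟨M, _, _, z, hz, -⟩ := tr_point (cI A.I)
  have hp : ∀ Q ∈ A.I, aeval (fun a => z (some a)) Q = 0 := zero_cI.1 fun Q hQ => (hz Q).2 hQ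
  have h0 : (fun a => z (some a)) ≠ 0 := fun h => by
    have h1 := dh_mem ((hz (rename some (X A.ao))).1 (by
      rw [rename_X, aeval_X]; exact congrFun h A.ao))
    rw [dh_rename] at h1
    have h2 := (AV.rep_zero (A := A) (R := k)).zero _ h1
    rw [aeval_X, A.o_ao, map_one] at h2
    exact one_ne_zero h2
  obtain ⟨c, w, μ, -, hw, -, -, h1⟩ := exists_frame hσ h0 hp
  have h2 := map_dP (aeval z) X (cvf A σ b j) P
  simp only [aeval_X] at h2
  rw [← hz, h2]
  refine mem_tsp.1 ((mem_tsp_cI hp).2 ?_) P hP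
  refine Fin.cases ?_ (fun j => ?_) j
  · convert Submodule.zero_mem _ using 1
    funext a
    exact map_zero _
  · have h3 : (fun a => aeval z (cvf A σ b j.succ (some a))) =
        (c * z (some b)) • w j + μ b j • fun a => z (some a) :=
      funext fun a => (aeval_rename _ _ _).trans (h1 b j a)
    rw [h3]
    exact add_mem (Submodule.smul_mem _ _ (mem_tsp.2 (hw j)))
      (Submodule.smul_mem _ _ (tsp_self A.hom hp))

omit [CharZero k] [Fintype ι] in
theorem qwr_ren (ω δ : ℕ) {f : MvPolynomial ι k} {n : ℕ} (hf : f.IsHomogeneous n) :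
    (rename some f).IsWeightedHomogeneous (wt ω δ) (n * δ) := by
  intro m hm
  obtain ⟨u, rfl, hu⟩ := coeff_rename_ne_zero _ _ _ hm
  have h := hf hu
  rw [Finsupp.weight_apply] at h ⊢
  rw [Finsupp.sum_mapDomain_index (by simp) (fun _ _ _ => add_smul _ _ _), ← h, Finsupp.sum_mul]
  simp [wt]

/-- `sg_wh`: `cvf A σ b j s` has weight `wt ω δ s + δ`. -/
theorem sg_cvf (ω δ : ℕ) (b : ι) (j : Fin (r + 1)) (s : Option ι) :
    sg (cI A.I) (wt ω δ) (cvf A σ b j s) = Polynomial.X ^ (wt ω δ s + δ) *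
      Polynomial.C (Ideal.Quotient.mk (cI A.I) (cvf A σ b j s)) := by
  refine sg_wh _ ?_
  refine Fin.cases ?_ (fun j => ?_) j <;> cases s
  · exact (isWeightedHomogeneous_X _ _ _).mul (isWeightedHomogeneous_X _ _ _)
  · exact isWeightedHomogeneous_zero _ _ _
  · exact isWeightedHomogeneous_zero _ _ _
  · exact two_mul δ ▸ qwr_ren ω δ (vf_hom _ _ _)

/-- `minors_mul` with a lower triangular matrix, or `minors_tri` and row operations. -/
theorem minors_tri2 {R : Type} [CommRing R] (s t₀ t ν₀ : R) (ν μ : Fin r → R) (x u₀ : κ → R)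
    (u : Fin r → κ → R) (S : Fin (r + 1 + 1) → κ) :
    minors (Fin.cons (fun a => s * x a) (Fin.cons (fun a => t₀ * u₀ a + ν₀ * x a)
      fun j a => t * u j a + μ j * u₀ a + ν j * x a)) S =
      s * t₀ * t ^ r * minors (Fin.cons x (Fin.cons u₀ u)) S := by
  let B' : Matrix (Fin (r + 1)) (Fin (r + 1)) R := .of
    (Fin.cons (Fin.cons t₀ 0) fun j => Fin.cons (μ j) (Matrix.diagonal (fun _ => t) j))
  let B : Matrix (Fin (r + 1 + 1)) (Fin (r + 1 + 1)) R := .of
    (Fin.cons (Fin.cons s 0) fun j => Fin.cons ((Fin.cons ν₀ ν : Fin (r + 1) → R) j) (B' j))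
  have h0 : B'.det = t₀ * t ^ r := by
    have h2 : B'.submatrix Fin.succ (Fin.succAbove 0) = Matrix.diagonal fun _ => t := rfl
    rw [Matrix.det_succ_row_zero, Fin.sum_univ_succ, h2, Matrix.det_diagonal]
    simp [B']
  have h1 : B.det = s * t₀ * t ^ r := by
    have h2 : B.submatrix Fin.succ (Fin.succAbove 0) = B' := rfl
    rw [Matrix.det_succ_row_zero, Fin.sum_univ_succ, h2, h0]
    simp [B, mul_assoc]
  rw [← h1, ← minors_mul]
  congr 1
  funext l a
  refine Fin.cases ?_ (fun j => Fin.cases ?_ (fun j => ?_) j) l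
  · simp [B, Fin.sum_univ_succ]
  · simp [B, B', Fin.sum_univ_succ, add_comm]
  · simp [B, B', Fin.sum_univ_succ, Matrix.diagonal_apply]
    ring

/-- `exists_frame` gives `c₀`, `w₀`, `μ`; put `c = c₀ ^ r`, `w 0 = (1, 0)`, `w j.succ = (0, w₀ j)`.
At `y = pt v`: `cvf b 0 = v b • w 0`, `cvf b j.succ = c₀ * v b • w j.succ + μ b j • (y - w 0)`;
`map_minors`, `map_dP`, `dP_lin`, `dP_self`, `minors_tri2`, as in `Sa.wr_val`. -/
theorem exists_cframe (hσ : A.LieBasis σ) {v : ι → k} (h0 : v ≠ 0)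
    (hv : ∀ P ∈ A.I, aeval v P = 0) : ∃ (c : k) (w : Fin (r + 1) → Option ι → k), c ≠ 0 ∧
      (∀ j, w j ∈ tsp (cI A.I) (pt v)) ∧
      LinearIndependent k (Fin.cons (pt v) w : Fin (r + 1 + 1) → Option ι → k) ∧
      ∀ {ψ ψ' : κ → MvPolynomial (Option ι) k} {e : ℕ} {s : k}, (∀ i, (ψ' i).IsHomogeneous e) →
        (∀ i, aeval (pt v) (ψ' i) = s * aeval (pt v) (ψ i)) →
        (∀ j, ∃ ν : k, ∀ i, dP (pt v) (w j) (ψ' i) =
          s * dP (pt v) (w j) (ψ i) + ν * aeval (pt v) (ψ i)) → ∀ b S,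
        aeval (pt v) (cwr A σ ψ' b S) =
          c * (v b ^ (r + 1) * (s ^ (r + 2) * minors (fr ψ (pt v) w) S)) := by
  obtain ⟨c, w, μ, hc, hw, hi, -, h1⟩ := exists_frame hσ h0 hv
  let W : Fin (r + 1) → Option ι → k :=
    Fin.cons (fun s => s.elim 1 fun _ => 0) fun j s => s.elim 0 (w j)
  refine ⟨c ^ r, W, pow_ne_zero _ hc, fun j => (mem_tsp_cI (y := pt v) hv).2 ?_,
    Fintype.linearIndependent_iff.2 fun g hg => ?_, fun {ψ ψ' e s} hψ h2 h3 b S => ?_⟩
  · refine Fin.cases (Submodule.zero_mem _) (fun j => ?_) j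
    exact tsp_eq (A := A) v ▸ hw j
  · have h4 := Fintype.linearIndependent_iff.1 hi (Fin.cons (g 0) fun j => g j.succ.succ) (by
      funext a
      have h5 := congrFun hg (some a)
      simpa [W, Fin.sum_univ_succ] using h5)
    have h5 := congrFun hg none
    have h6 : g 0 = 0 := h4 0
    refine Fin.cases h6 (Fin.cases ?_ fun j => h4 j.succ)
    simpa [W, Fin.sum_univ_succ, h6] using h5
  choose ν hν using h3
  have h4 := map_minors (aeval (pt v) : MvPolynomial (Option ι) k →ₐ[k] k).toRingHom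
    (Fin.cons ψ' fun j i =>
      dP (X : Option ι → MvPolynomial (Option ι) k) (cvf A σ b j) (ψ' i)) S
  have h5 : (fun j a => (aeval (pt v) : MvPolynomial (Option ι) k →ₐ[k] k).toRingHom
      ((Fin.cons ψ' fun j i => dP (X : Option ι → MvPolynomial (Option ι) k) (cvf A σ b j) (ψ' i) :
        Fin (r + 1 + 1) → κ → MvPolynomial (Option ι) k) j a)) =
      Fin.cons (fun a => s * aeval (pt v) (ψ a))
        (Fin.cons (fun a => v b * s * dP (pt v) (W 0) (ψ a) + v b * ν 0 * aeval (pt v) (ψ a))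
          fun j a => c * v b * s * dP (pt v) (W j.succ) (ψ a) +
            -(μ b j * s) * dP (pt v) (W 0) (ψ a) +
              (c * v b * ν j.succ + μ b j * e * s - μ b j * ν 0) * aeval (pt v) (ψ a)) := by
    funext j a
    refine Fin.cases (h2 a) (fun j => ?_) j
    have h7 := map_dP (aeval (pt v) : MvPolynomial (Option ι) k →ₐ[k] k) X (cvf A σ b j) (ψ' a)
    simp only [aeval_X] at h7
    refine h7.trans ?_
    refine Fin.cases ?_ (fun j => ?_) j
    · have h6 : (fun t => aeval (pt v) (cvf A σ b 0 t)) = v b • W 0 := by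
        funext t
        cases t <;> simp [cvf, W]
      rw [h6, dP_smul, hν]
      simp only [Fin.cons_succ, Fin.cons_zero]
      ring
    · have h6 : (fun t => aeval (pt v) (cvf A σ b j.succ t)) =
          (c * v b) • W j.succ + ((-μ b j) • W 0 + μ b j • pt v) := by
        funext t
        cases t with
        | none => simp [cvf, W]
        | some t =>
          refine ((aeval_rename some (pt v) _).trans (h1 b j t)).trans ?_
          show _ = c * v b * w j t + (-μ b j * 0 + μ b j * v t)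
          ring
      rw [h6, dP_lin, dP_lin, dP_smul, dP_self (hψ a), hν, hν, h2]
      simp only [Fin.cons_succ]
      ring
  rw [h5, minors_tri2] at h4
  refine h4.trans ?_
  have h8 : fr ψ (pt v) W = Fin.cons (fun a => aeval (pt v) (ψ a))
      (Fin.cons (fun a => dP (pt v) (W 0) (ψ a)) fun j a => dP (pt v) (W j.succ) (ψ a)) := by
    funext j
    exact Fin.cases rfl (fun j => Fin.cases rfl (fun _ => rfl) j) j
  rw [h8]
  ring

end Pool.Agent.Lib.MP_651af7_nt.Cq
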